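import Pool.Agent.Helper7.Proj.Packets

/-!
# Packet C2 for MP_705522_gt: bounds for the source term `Bf`
-/

namespace Pool.Agent.Helper16.Proj

open MeasureTheory Set Filter Topology Pool.Agent.Helper7.Proj

lemma w_le {q x : ℝ} (hq : 1 ≤ q) (hx : 0 < x) : Real.exp (-x ^ q) ≤ Real.exp (1 - x) := by
  apply Real.exp_le_exp.mpr
  rcases le_total x 1 with h | h
  · have := Real.rpow_nonneg hx.le q
    linarith
  · have : x ≤ x ^ q := by
      calc x = x ^ (1:ℝ) := (Real.rpow_one x).symm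
        _ ≤ x ^ q := Real.rpow_le_rpow_of_exponent_le h hq
    linarith

lemma exp_neg_one_ge : (1/3 : ℝ) ≤ Real.exp (-1) := by
  have h := Real.exp_one_lt_d9
  rw [Real.exp_neg, ← one_div]
  exact one_div_le_one_div_of_le (Real.exp_pos 1) (by linarith)

lemma w_ge {q x : ℝ} (hq : 0 ≤ q) (hx : 0 < x) (hx1 : x ≤ 1) :
    (1/3 : ℝ) ≤ Real.exp (-x ^ q) := by
  refine exp_neg_one_ge.trans (Real.exp_le_exp.mpr ?_)
  have := Real.rpow_le_one hx.le hx1 hq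
  linarith

lemma rpow_le_one_add {δ x : ℝ} (h0 : 0 ≤ δ) (h1 : δ ≤ 1) (hx : 0 < x) : x ^ δ ≤ 1 + x := by
  rcases le_total x 1 with h | h
  · have := Real.rpow_le_one hx.le h h0
    linarith
  · have : x ^ δ ≤ x := by
      calc x ^ δ ≤ x ^ (1:ℝ) := Real.rpow_le_rpow_of_exponent_le h h1
        _ = x := Real.rpow_one x
    linarith

lemma abs_rpow_sub_one_le {δ x : ℝ} (h0 : 0 ≤ δ) (h1 : δ ≤ 1) (hx : 0 < x) :
    |x ^ δ - 1| ≤ δ * (4 * x ^ (-(1/4) : ℝ) + x) := by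
  have hp : 0 < x ^ (-(1/4) : ℝ) := Real.rpow_pos_of_pos hx _
  rcases le_total x 1 with h | h
  · have h2 : x ^ δ ≤ 1 := Real.rpow_le_one hx.le h h0
    rw [abs_sub_comm, abs_of_nonneg (by linarith)]
    have h3 : 1 + δ * Real.log x ≤ x ^ δ := by
      rw [Real.rpow_def_of_pos hx]
      have := Real.add_one_le_exp (Real.log x * δ)
      linarith
    have h4 : -Real.log x ≤ 4 * x ^ (-(1/4) : ℝ) := by
      rw [← Real.log_inv]
      have := Real.log_le_rpow_div (inv_pos.mpr hx).le (show (0:ℝ) < 1/4 by norm_num)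
      rw [Real.inv_rpow hx.le, ← Real.rpow_neg hx.le] at this
      linarith
    nlinarith
  · have h2 : 1 ≤ x ^ δ := Real.one_le_rpow h h0
    rw [abs_of_nonneg (by linarith)]
    have h3 : x ^ δ ≤ 1 + δ * (x - 1) := by
      have := rpow_one_add_le_one_add_mul_self (show -1 ≤ x - 1 by linarith) h0 h1
      simpa using this
    nlinarith

/-- basic envelope -/
noncomputable def Gf (x : ℝ) : ℝ := x ^ (-(1/2) : ℝ) * (1 + x) ^ 10 * Real.exp (1 - x)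
/-- basic envelope with lower power -/
noncomputable def g8 (x : ℝ) : ℝ := x ^ (-(1/2) : ℝ) * (1 + x) ^ 8 * Real.exp (1 - x)

lemma int_rpow_exp {s : ℝ} (hs : -1 < s) :
    IntegrableOn (fun x : ℝ => x ^ s * Real.exp (1 - x)) (Ioi 0) := by
  have h := Real.GammaIntegral_convergent (s := s + 1) (by linarith)
  have h' : IntegrableOn (fun x : ℝ => Real.exp 1 * (Real.exp (-x) * x ^ (s + 1 - 1)))
    (Ioi 0) := h.const_mul (Real.exp 1)
  refine h'.congr_fun (fun x _ => ?_) measurableSet_Ioi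
  simp only [add_sub_cancel_right]
  rw [sub_eq_add_neg, Real.exp_add]; ring

lemma rpow_half_le {x : ℝ} (hx : 0 < x) : 1 ≤ x ^ (-(1/2) : ℝ) * (1 + x) := by
  have h1 : x ^ (1/2 : ℝ) ≤ 1 + x := rpow_le_one_add (by norm_num) (by norm_num) hx
  have h2 : x ^ (-(1/2) : ℝ) * x ^ (1/2 : ℝ) = 1 := by
    rw [← Real.rpow_add hx]; norm_num
  have h3 : 0 < x ^ (-(1/2) : ℝ) := Real.rpow_pos_of_pos hx _
  nlinarith

lemma rpow_quarter_le {x : ℝ} (hx : 0 < x) :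
    x ^ (-(1/4) : ℝ) ≤ x ^ (-(1/2) : ℝ) * (1 + x) := by
  have h1 : x ^ (1/4 : ℝ) ≤ 1 + x := rpow_le_one_add (by norm_num) (by norm_num) hx
  have h2 : x ^ (-(1/2) : ℝ) * x ^ (1/4 : ℝ) = x ^ (-(1/4) : ℝ) := by
    rw [← Real.rpow_add hx]; norm_num
  have h3 : 0 < x ^ (-(1/2) : ℝ) := Real.rpow_pos_of_pos hx _
  nlinarith

lemma contOn_rpow (s : ℝ) : ContinuousOn (fun x : ℝ => x ^ s) (Ioi 0) :=
  fun x hx => (Real.continuousAt_rpow_const x s (Or.inl (ne_of_gt hx))).continuousWithinAt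

lemma contOn_w (q : ℝ) : ContinuousOn (fun x : ℝ => Real.exp (-x ^ q)) (Ioi 0) :=
  (contOn_rpow q).neg.rexp

lemma contOn_Gf : ContinuousOn Gf (Ioi 0) := by
  unfold Gf
  exact ((contOn_rpow _).mul (by fun_prop)).mul (by fun_prop)

lemma contOn_g8 : ContinuousOn g8 (Ioi 0) := by
  unfold g8
  exact ((contOn_rpow _).mul (by fun_prop)).mul (by fun_prop)

lemma int_Gf : IntegrableOn Gf (Ioi 0) := by
  have h1 := (int_rpow_exp (s := -(1/2)) (by norm_num)).const_mul (2 ^ 9 : ℝ)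
  have h2 := (int_rpow_exp (s := 10 - 1/2) (by norm_num)).const_mul (2 ^ 9 : ℝ)
  refine Integrable.mono' (h1.add h2) (contOn_Gf.aestronglyMeasurable measurableSet_Ioi) ?_
  refine (ae_restrict_iff' measurableSet_Ioi).mpr (Eventually.of_forall fun x hx => ?_)
  have hx : 0 < x := hx
  have hp : 0 < x ^ (-(1/2) : ℝ) := Real.rpow_pos_of_pos hx _
  have he := Real.exp_pos (1 - x)
  have h3 : x ^ (10 - 1/2 : ℝ) = x ^ (-(1/2) : ℝ) * x ^ 10 := by
    rw [← Real.rpow_natCast x 10, ← Real.rpow_add hx]; norm_num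
  have h4 : (1 + x) ^ 10 ≤ 2 ^ 9 * (1 ^ 10 + x ^ 10) := add_pow_le zero_le_one hx.le 10
  unfold Gf
  rw [Real.norm_of_nonneg (by positivity)]
  simp only [Pi.add_apply]
  rw [h3]
  have h5 : 0 < x ^ (-(1/2) : ℝ) * Real.exp (1 - x) := by positivity
  nlinarith [mul_le_mul_of_nonneg_left h4 h5.le]

lemma Gf_nonneg {x : ℝ} (hx : 0 < x) : 0 ≤ Gf x := by unfold Gf; positivity
lemma g8_nonneg {x : ℝ} (hx : 0 < x) : 0 ≤ g8 x := by unfold g8; positivity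

lemma g8_le {x : ℝ} (hx : 0 < x) : g8 x ≤ Gf x := by
  unfold g8 Gf
  have hp : 0 < x ^ (-(1/2) : ℝ) := Real.rpow_pos_of_pos hx _
  have : (1 + x) ^ 8 ≤ (1 + x) ^ 10 := pow_le_pow_right₀ (by linarith) (by norm_num)
  gcongr

lemma x_g8_le {x : ℝ} (hx : 0 < x) : x * g8 x ≤ Gf x := by
  unfold g8 Gf
  have hp : 0 < x ^ (-(1/2) : ℝ) := Real.rpow_pos_of_pos hx _
  have h1 : x * (1 + x) ^ 8 ≤ (1 + x) ^ 10 := by
    have h0 : (0:ℝ) ≤ (1 + x) ^ 8 := by positivity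
    have h2 : x ≤ (1 + x) ^ 2 := by nlinarith
    calc x * (1 + x) ^ 8 ≤ (1 + x) ^ 2 * (1 + x) ^ 8 := mul_le_mul_of_nonneg_right h2 h0
      _ = _ := by ring
  calc x * (x ^ (-(1/2) : ℝ) * (1 + x) ^ 8 * Real.exp (1 - x))
      = x ^ (-(1/2) : ℝ) * (x * (1 + x) ^ 8) * Real.exp (1 - x) := by ring
    _ ≤ _ := by gcongr

lemma x2_g8_le {x : ℝ} (hx : 0 < x) : x ^ 2 * g8 x ≤ Gf x := by
  unfold g8 Gf
  have hp : 0 < x ^ (-(1/2) : ℝ) := Real.rpow_pos_of_pos hx _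
  have h1 : x ^ 2 * (1 + x) ^ 8 ≤ (1 + x) ^ 10 := by
    have h0 : (0:ℝ) ≤ (1 + x) ^ 8 := by positivity
    have h2 : x ^ 2 ≤ (1 + x) ^ 2 := by nlinarith
    calc x ^ 2 * (1 + x) ^ 8 ≤ (1 + x) ^ 2 * (1 + x) ^ 8 := mul_le_mul_of_nonneg_right h2 h0
      _ = _ := by ring
  calc x ^ 2 * (x ^ (-(1/2) : ℝ) * (1 + x) ^ 8 * Real.exp (1 - x))
      = x ^ (-(1/2) : ℝ) * (x ^ 2 * (1 + x) ^ 8) * Real.exp (1 - x) := by ring
    _ ≤ _ := by gcongr

lemma int_g8 : IntegrableOn g8 (Ioi 0) := by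
  refine Integrable.mono' int_Gf (contOn_g8.aestronglyMeasurable measurableSet_Ioi) ?_
  refine (ae_restrict_iff' measurableSet_Ioi).mpr (Eventually.of_forall fun x hx => ?_)
  rw [Real.norm_of_nonneg (g8_nonneg hx)]
  exact g8_le hx

/-- The constant `∫ Gf`. -/
noncomputable def IG : ℝ := ∫ x in Ioi (0 : ℝ), Gf x

lemma IG_nonneg : 0 ≤ IG := setIntegral_nonneg measurableSet_Ioi fun _ hx => Gf_nonneg hx

/-- comparison with an envelope -/
lemma int_of_le {f g : ℝ → ℝ} (hf : ContinuousOn f (Ioi 0)) (hg : IntegrableOn g (Ioi 0))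
    (h : ∀ x, 0 < x → |f x| ≤ g x) : IntegrableOn f (Ioi 0) := by
  refine Integrable.mono' hg (hf.aestronglyMeasurable measurableSet_Ioi) ?_
  exact (ae_restrict_iff' measurableSet_Ioi).mpr (Eventually.of_forall fun x hx => h x hx)

lemma abs_int_le {f g : ℝ → ℝ} (hg : IntegrableOn g (Ioi 0))
    (h : ∀ x, 0 < x → |f x| ≤ g x) : |∫ x in Ioi 0, f x| ≤ ∫ x in Ioi 0, g x := by
  have := norm_integral_le_of_norm_le (μ := volume.restrict (Ioi (0:ℝ))) (f := f) hg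
    ((ae_restrict_iff' measurableSet_Ioi).mpr (Eventually.of_forall fun x hx => h x hx))
  simpa using this

lemma int_mono {f g : ℝ → ℝ} (hf : IntegrableOn f (Ioi 0)) (hg : IntegrableOn g (Ioi 0))
    (h : ∀ x, 0 < x → f x ≤ g x) : ∫ x in Ioi 0, f x ≤ ∫ x in Ioi 0, g x :=
  setIntegral_mono_on hf hg measurableSet_Ioi fun x hx => h x hx

lemma int_exp1 : IntegrableOn (fun x : ℝ => Real.exp (1 - x)) (Ioi 0) := by
  have := int_rpow_exp (s := 0) (by norm_num)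
  simpa using this

lemma int_xexp1 : IntegrableOn (fun x : ℝ => x * Real.exp (1 - x)) (Ioi 0) := by
  have := int_rpow_exp (s := 1) (by norm_num)
  simpa using this

lemma val_exp1 : ∫ x in Ioi (0:ℝ), Real.exp (1 - x) = Real.exp 1 := by
  have h : ∀ x : ℝ, Real.exp (1 - x) = Real.exp 1 * Real.exp (-x) := fun x => by
    rw [sub_eq_add_neg, Real.exp_add]
  simp_rw [h]
  rw [integral_const_mul, integral_exp_neg_Ioi_zero, mul_one]

lemma val_xexp1 : ∫ x in Ioi (0:ℝ), x * Real.exp (1 - x) = Real.exp 1 := by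
  have h : ∀ x : ℝ, x * Real.exp (1 - x) = Real.exp 1 * (Real.exp (-x) * x) := fun x => by
    rw [sub_eq_add_neg, Real.exp_add]; ring
  simp_rw [h]
  rw [integral_const_mul]
  have := Real.Gamma_eq_integral (s := 2) (by norm_num)
  rw [Real.Gamma_two] at this
  norm_num at this
  rw [← this, mul_one]

lemma exp_one_le : Real.exp 1 ≤ 3 := by
  have := Real.exp_one_lt_d9; linarith

lemma int_w {q : ℝ} (hq : 1 ≤ q) : IntegrableOn (fun x : ℝ => Real.exp (-x ^ q)) (Ioi 0) := by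
  refine int_of_le (contOn_w q) int_exp1 fun x hx => ?_
  rw [abs_of_pos (Real.exp_pos _)]
  exact w_le hq hx

lemma int_xdw {q δ : ℝ} (hq : 1 ≤ q) (h0 : 0 ≤ δ) (h1 : δ ≤ 1) :
    IntegrableOn (fun x : ℝ => x ^ δ * Real.exp (-x ^ q)) (Ioi 0) := by
  refine int_of_le ((contOn_rpow δ).mul (contOn_w q)) (int_exp1.add int_xexp1) fun x hx => ?_
  have hp := Real.rpow_pos_of_pos hx δ
  rw [abs_of_pos (by positivity)]
  have := rpow_le_one_add h0 h1 hx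
  have h2 := w_le hq hx
  have h3 := Real.exp_pos (-x ^ q)
  simp only [Pi.add_apply]
  nlinarith

lemma lower_Ioc {f g : ℝ → ℝ} {c : ℝ} (hf : IntegrableOn f (Ioi 0)) (h0 : ∀ x, 0 < x → 0 ≤ f x)
    (hg : IntegrableOn g (Ioc 0 c)) (h : ∀ x, 0 < x → x ≤ c → g x ≤ f x) :
    ∫ x in Ioc 0 c, g x ≤ ∫ x in Ioi 0, f x := by
  calc ∫ x in Ioc 0 c, g x ≤ ∫ x in Ioc 0 c, f x :=
        setIntegral_mono_on hg (hf.mono_set Ioc_subset_Ioi_self) measurableSet_Ioc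
          fun x hx => h x hx.1 hx.2
    _ ≤ ∫ x in Ioi 0, f x := by
        refine setIntegral_mono_set hf ?_ (Ioc_subset_Ioi_self.eventuallyLE)
        exact (ae_restrict_iff' measurableSet_Ioi).mpr (Eventually.of_forall fun x hx => h0 x hx)

lemma Zo_bounds {q : ℝ} (hq : 1 ≤ q) : 1/3 ≤ Zo q ∧ Zo q ≤ 3 := by
  constructor
  · have := lower_Ioc (c := 1) (g := fun _ => (1/3 : ℝ)) (int_w hq)
      (fun x _ => (Real.exp_pos _).le)
      (by simp [integrableOn_const_iff]) (fun x hx hx1 => w_ge (by linarith) hx hx1)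
    simpa [Zo] using this
  · have := int_mono (int_w hq) int_exp1 (fun x hx => w_le hq hx)
    rw [val_exp1] at this
    exact this.trans exp_one_le

lemma Zd_bounds {δ : ℝ} (h0 : 0 ≤ δ) (h1 : δ ≤ 1) : 1/6 ≤ Zd (2 + δ) ∧ Zd (2 + δ) ≤ 6 := by
  have e : (2 + δ) - 2 = δ := by ring
  unfold Zd
  rw [e]
  constructor
  · have := lower_Ioc (c := 1) (g := fun x => x * (1/3 : ℝ))
      (int_xdw (q := 2 + δ) (by linarith) h0 h1)
      (fun x hx => by positivity)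
      ((Continuous.integrableOn_Icc (by fun_prop)).mono_set Ioc_subset_Icc_self) (fun x hx hx1 => by
        have h2 : x ≤ x ^ δ := by
          calc x = x ^ (1:ℝ) := (Real.rpow_one x).symm
            _ ≤ x ^ δ := Real.rpow_le_rpow_of_exponent_ge hx hx1 h1
        have h3 := w_ge (q := 2 + δ) (by linarith) hx hx1
        gcongr)
    rw [← intervalIntegral.integral_of_le zero_le_one, intervalIntegral.integral_mul_const,
      integral_id] at this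
    norm_num at this ⊢
    exact this
  · have := int_mono (int_xdw (q := 2 + δ) (by linarith) h0 h1) (int_exp1.add int_xexp1)
      (fun x hx => by
        simp only [Pi.add_apply]
        have := rpow_le_one_add h0 h1 hx
        have h2 := w_le (q := 2 + δ) (by linarith) hx
        have h3 := Real.exp_pos (-x ^ (2 + δ))
        nlinarith)
    rw [integral_add' int_exp1 int_xexp1, val_exp1, val_xexp1] at this
    have := exp_one_le
    linarith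

lemma Zdiff {δ : ℝ} (h0 : 0 ≤ δ) (h1 : δ ≤ 1) : |Zd (2 + δ) - Zo (2 + δ)| ≤ 5 * IG * δ := by
  have e : (2 + δ) - 2 = δ := by ring
  unfold Zd Zo
  rw [e, ← integral_sub (int_xdw (q := 2 + δ) (by linarith) h0 h1) (int_w (by linarith))]
  have hg : IntegrableOn (fun x => 5 * δ * Gf x) (Ioi 0) := int_Gf.const_mul (5 * δ)
  have := abs_int_le (f := fun x : ℝ => x ^ δ * Real.exp (-x ^ (2 + δ)) - Real.exp (-x ^ (2 + δ)))
    hg (fun x hx => ?_)
  · refine this.trans (le_of_eq ?_)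
    rw [integral_const_mul]; unfold IG; ring
  · have e1 : x ^ δ * Real.exp (-x ^ (2 + δ)) - Real.exp (-x ^ (2 + δ))
        = (x ^ δ - 1) * Real.exp (-x ^ (2 + δ)) := by ring
    rw [e1, abs_mul, abs_of_pos (Real.exp_pos _)]
    have h2 := abs_rpow_sub_one_le h0 h1 hx
    have h3 := w_le (q := 2 + δ) (by linarith) hx
    have h4 := rpow_quarter_le hx
    have h5 : x ≤ x ^ (-(1/2) : ℝ) * (1 + x) ^ 2 := by
      have := rpow_half_le hx
      nlinarith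
    have hp : 0 < x ^ (-(1/2) : ℝ) := Real.rpow_pos_of_pos hx _
    have h6 : 4 * x ^ (-(1/4) : ℝ) + x ≤ 5 * (x ^ (-(1/2) : ℝ) * (1 + x) ^ 10) := by
      have a1 : (1 + x) ≤ (1 + x) ^ 10 := by
        have := pow_le_pow_right₀ (show (1:ℝ) ≤ 1 + x by linarith) (show 1 ≤ 10 by norm_num)
        simpa using this
      have a2 : (1 + x) ^ 2 ≤ (1 + x) ^ 10 := pow_le_pow_right₀ (by linarith) (by norm_num)
      have a3 := mul_le_mul_of_nonneg_left a1 hp.le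
      have a4 := mul_le_mul_of_nonneg_left a2 hp.le
      linarith
    calc |x ^ δ - 1| * Real.exp (-x ^ (2 + δ))
        ≤ (δ * (4 * x ^ (-(1/4) : ℝ) + x)) * Real.exp (1 - x) := by
          gcongr
      _ ≤ (δ * (5 * (x ^ (-(1/2) : ℝ) * (1 + x) ^ 10))) * Real.exp (1 - x) := by
          gcongr
      _ = _ := by unfold Gf; ring

/-- abstract form of `beta` -/
noncomputable def bf (A Z ρ δ x : ℝ) : ℝ :=
  Real.exp (-x ^ (2 + δ)) * (A * x ^ (δ - 1) - (1 / Z) * (x * (1 - ρ * x ^ δ) ^ 2))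

/-- remainder in `-bf' = (1-δ) A x^(δ-2) w + Rf` -/
noncomputable def Rf (A Z ρ δ x : ℝ) : ℝ :=
  Real.exp (-x ^ (2 + δ)) * (((2 + δ) * x ^ (1 + δ)) *
    (A * x ^ (δ - 1) - (1 / Z) * (x * (1 - ρ * x ^ δ) ^ 2))
    + (1 / Z) * ((1 - ρ * x ^ δ) ^ 2 - 2 * δ * ρ * x ^ δ * (1 - ρ * x ^ δ)))

lemma hasDerivAt_bf (A Z ρ δ : ℝ) {x : ℝ} (hx : 0 < x) : HasDerivAt (bf A Z ρ δ)
    (-((1 - δ) * A * (x ^ (δ - 2) * Real.exp (-x ^ (2 + δ))) + Rf A Z ρ δ x)) x := by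
  have h1 : HasDerivAt (fun x : ℝ => x ^ (2 + δ)) ((2 + δ) * x ^ (2 + δ - 1)) x :=
    Real.hasDerivAt_rpow_const (Or.inl hx.ne')
  have h2 : HasDerivAt (fun x : ℝ => x ^ (δ - 1)) ((δ - 1) * x ^ (δ - 1 - 1)) x :=
    Real.hasDerivAt_rpow_const (Or.inl hx.ne')
  have h3 : HasDerivAt (fun x : ℝ => x ^ δ) (δ * x ^ (δ - 1)) x :=
    Real.hasDerivAt_rpow_const (Or.inl hx.ne')
  have h4 := ((h3.const_mul ρ).const_sub 1).pow 2
  have h5 := (hasDerivAt_id x).mul h4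
  have h6 := (h2.const_mul A).sub (h5.const_mul (1 / Z))
  have h7 := h1.neg.exp.mul h6
  have e1 : x ^ δ = x * x ^ (δ - 1) := by
    rw [Real.rpow_sub_one hx.ne']; field_simp
  have e2 : (2 + δ - 1) = 1 + δ := by ring
  have e3 : δ - 1 - 1 = δ - 2 := by ring
  unfold bf
  refine h7.congr_deriv ?_
  simp only [id, Pi.mul_apply, Pi.sub_apply, Pi.pow_apply]
  rw [e2, e3]
  unfold Rf
  rw [e1]
  simp
  ring

section bounds

variable {A Z ρ δ K x : ℝ}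

lemma v_bound1 (h0 : 0 < δ) (h1 : δ ≤ 1/2) (hK : 0 ≤ K) (hρ0 : 0 ≤ ρ) (hρ : ρ ≤ 2)
    (hv : |1 - ρ| ≤ K * δ) (hx : 0 < x) :
    |1 - ρ * x ^ δ| ≤ (K + 10) * δ * (x ^ (-(1/4) : ℝ) * (1 + x) ^ 2) := by
  have e : 1 - ρ * x ^ δ = (1 - ρ) - ρ * (x ^ δ - 1) := by ring
  have h2 := abs_rpow_sub_one_le h0.le (by linarith) hx
  have h3 : |1 - ρ * x ^ δ| ≤ K * δ + 2 * (δ * (4 * x ^ (-(1/4) : ℝ) + x)) := by
    rw [e]
    refine (abs_sub _ _).trans ?_
    rw [abs_mul, abs_of_nonneg hρ0]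
    have : 0 ≤ |x ^ δ - 1| := abs_nonneg _
    nlinarith
  have ha : 0 < x ^ (-(1/4) : ℝ) := Real.rpow_pos_of_pos hx _
  have h4 : x ^ (1/4 : ℝ) ≤ 1 + x := rpow_le_one_add (by norm_num) (by norm_num) hx
  have h5 : x ^ (-(1/4) : ℝ) * x ^ (1/4 : ℝ) = 1 := by
    rw [← Real.rpow_add hx]; norm_num
  have h6 : 1 ≤ x ^ (-(1/4) : ℝ) * (1 + x) := by nlinarith
  have h7 : 1 ≤ x ^ (-(1/4) : ℝ) * (1 + x) ^ 2 := by nlinarith
  have h8 : x ≤ x ^ (-(1/4) : ℝ) * (1 + x) ^ 2 := by nlinarith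
  have h9 : x ^ (-(1/4) : ℝ) ≤ x ^ (-(1/4) : ℝ) * (1 + x) ^ 2 := by nlinarith
  have hKδ : 0 ≤ K * δ := by positivity
  nlinarith [mul_le_mul_of_nonneg_left h7 hKδ, mul_le_mul_of_nonneg_left h8 h0.le,
    mul_le_mul_of_nonneg_left h9 h0.le]

lemma v_bound2 (h0 : 0 < δ) (h1 : δ ≤ 1/2) (hK : 0 ≤ K) (hρ0 : 0 ≤ ρ) (hρ : ρ ≤ 2)
    (hv : |1 - ρ| ≤ K * δ) (hx : 0 < x) :
    |1 - ρ * x ^ δ| ≤ (K + 10) * δ * (x ^ (-(1/2) : ℝ) * (1 + x) ^ 3) := by
  have h := v_bound1 h0 h1 hK hρ0 hρ hv hx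
  refine h.trans ?_
  have h2 := rpow_quarter_le hx
  have h3 : x ^ (-(1/4) : ℝ) * (1 + x) ^ 2 ≤ x ^ (-(1/2) : ℝ) * (1 + x) ^ 3 := by
    calc x ^ (-(1/4) : ℝ) * (1 + x) ^ 2 ≤ (x ^ (-(1/2) : ℝ) * (1 + x)) * (1 + x) ^ 2 := by gcongr
      _ = _ := by ring
  gcongr

lemma v_sq (h0 : 0 < δ) (h1 : δ ≤ 1/2) (hK : 0 ≤ K) (hρ0 : 0 ≤ ρ) (hρ : ρ ≤ 2)
    (hv : |1 - ρ| ≤ K * δ) (hx : 0 < x) :
    (1 - ρ * x ^ δ) ^ 2 ≤ (K + 10) ^ 2 * δ ^ 2 * (x ^ (-(1/2) : ℝ) * (1 + x) ^ 4) := by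
  have h := v_bound1 h0 h1 hK hρ0 hρ hv hx
  have e : x ^ (-(1/2) : ℝ) = (x ^ (-(1/4) : ℝ)) ^ 2 := by
    rw [← Real.rpow_natCast (x ^ (-(1/4) : ℝ)) 2, ← Real.rpow_mul hx.le]; norm_num
  rw [← sq_abs, e]
  calc |1 - ρ * x ^ δ| ^ 2 ≤ ((K + 10) * δ * (x ^ (-(1/4) : ℝ) * (1 + x) ^ 2)) ^ 2 := by
        gcongr
    _ = _ := by ring

/-- the four terms -/
lemma terms (h0 : 0 < δ) (h1 : δ ≤ 1/2) (hK : 0 ≤ K) (hZ : 1/3 ≤ Z) (hA0 : 0 ≤ A)
    (hA1 : A ≤ 54 * δ) (hρ0 : 0 ≤ ρ) (hρ : ρ ≤ 2)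
    (hv : |1 - ρ| ≤ K * δ) (hx : 0 < x) :
    -((9 * (K + 10) ^ 2 + 12 * (K + 10)) * δ ^ 2 * (x ^ (-(1/2) : ℝ) * (1 + x) ^ 8)) ≤
      (((2 + δ) * x ^ (1 + δ)) *
    (A * x ^ (δ - 1) - (1 / Z) * (x * (1 - ρ * x ^ δ) ^ 2))
    + (1 / Z) * ((1 - ρ * x ^ δ) ^ 2 - 2 * δ * ρ * x ^ δ * (1 - ρ * x ^ δ))) ∧
    (((2 + δ) * x ^ (1 + δ)) *
    (A * x ^ (δ - 1) - (1 / Z) * (x * (1 - ρ * x ^ δ) ^ 2))
    + (1 / Z) * ((1 - ρ * x ^ δ) ^ 2 - 2 * δ * ρ * x ^ δ * (1 - ρ * x ^ δ))) ≤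
      (162 + 3 * (K + 10) ^ 2 + 12 * (K + 10)) * δ * (x ^ (-(1/2) : ℝ) * (1 + x) ^ 8) := by
  set v := 1 - ρ * x ^ δ with hvdef
  set h := x ^ (-(1/2) : ℝ) with hh
  have hb2 : |v| ≤ (K + 10) * δ * (h * (1 + x) ^ 3) := v_bound2 h0 h1 hK hρ0 hρ hv hx
  have hsq : v ^ 2 ≤ (K + 10) ^ 2 * δ ^ 2 * (h * (1 + x) ^ 4) := v_sq h0 h1 hK hρ0 hρ hv hx
  have hhpos : 0 < h := Real.rpow_pos_of_pos hx _
  have hZi : 1 / Z ≤ 3 := by
    rw [div_le_iff₀ (by linarith)]; linarith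
  have hZi0 : 0 < 1 / Z := by positivity
  have hxd : x ^ δ ≤ 1 + x := rpow_le_one_add h0.le (by linarith) hx
  have hxd0 : 0 < x ^ δ := Real.rpow_pos_of_pos hx _
  have hx2d : x ^ (2 * δ) ≤ 1 + x := rpow_le_one_add (by linarith) (by linarith) hx
  have hx2d0 : 0 < x ^ (2 * δ) := Real.rpow_pos_of_pos hx _
  have e1 : ((2 + δ) * x ^ (1 + δ)) * (A * x ^ (δ - 1)) = (2 + δ) * A * x ^ (2 * δ) := by
    have : x ^ (2 * δ) = x ^ (1 + δ) * x ^ (δ - 1) := by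
      rw [← Real.rpow_add hx]; ring_nf
    rw [this]; ring
  have e2 : ((2 + δ) * x ^ (1 + δ)) * ((1 / Z) * (x * v ^ 2)) =
      (2 + δ) * (1 / Z) * (x ^ 2 * x ^ δ) * v ^ 2 := by
    have : x ^ (1 + δ) = x * x ^ δ := by rw [Real.rpow_add hx, Real.rpow_one]
    rw [this]; ring
  have T1 : (2 + δ) * A * x ^ (2 * δ) ≤ 162 * δ * (1 + x) := by
    calc (2 + δ) * A * x ^ (2 * δ) ≤ 3 * (54 * δ) * (1 + x) := by
          gcongr; linarith
      _ = _ := by ring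
  have T1' : 0 ≤ (2 + δ) * A * x ^ (2 * δ) := by positivity
  have T2 : (2 + δ) * (1 / Z) * (x ^ 2 * x ^ δ) * v ^ 2 ≤
      9 * (K + 10) ^ 2 * δ ^ 2 * (h * (1 + x) ^ 7) := by
    have h2 : x ^ 2 * x ^ δ ≤ (1 + x) ^ 3 := by
      calc x ^ 2 * x ^ δ ≤ (1 + x) ^ 2 * (1 + x) := by gcongr; linarith
        _ = _ := by ring
    calc (2 + δ) * (1 / Z) * (x ^ 2 * x ^ δ) * v ^ 2
        ≤ 3 * 3 * (1 + x) ^ 3 * ((K + 10) ^ 2 * δ ^ 2 * (h * (1 + x) ^ 4)) := by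
          gcongr; linarith
      _ = _ := by ring
  have T2' : 0 ≤ (2 + δ) * (1 / Z) * (x ^ 2 * x ^ δ) * v ^ 2 := by positivity
  have T3 : (1 / Z) * v ^ 2 ≤ 3 * (K + 10) ^ 2 * δ ^ 2 * (h * (1 + x) ^ 4) := by
    calc (1 / Z) * v ^ 2 ≤ 3 * ((K + 10) ^ 2 * δ ^ 2 * (h * (1 + x) ^ 4)) := by gcongr
      _ = _ := by ring
  have T3' : 0 ≤ (1 / Z) * v ^ 2 := by positivity
  have T4 : |(1 / Z) * (2 * δ * ρ * x ^ δ * v)| ≤ 12 * (K + 10) * δ ^ 2 * (h * (1 + x) ^ 4) := by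
    rw [abs_mul, abs_mul, abs_of_pos hZi0, abs_of_nonneg (by positivity)]
    calc 1 / Z * (2 * δ * ρ * x ^ δ * |v|)
        ≤ 3 * (2 * δ * 2 * (1 + x) * ((K + 10) * δ * (h * (1 + x) ^ 3))) := by gcongr
      _ = _ := by ring
  have T4l := (abs_le.mp T4).1
  have T4u := (abs_le.mp T4).2
  have p1 : (1:ℝ) ≤ 1 + x := by linarith
  have q1 : h * (1 + x) ^ 7 ≤ h * (1 + x) ^ 8 :=
    mul_le_mul_of_nonneg_left (pow_le_pow_right₀ p1 (by norm_num)) hhpos.le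
  have q2 : h * (1 + x) ^ 4 ≤ h * (1 + x) ^ 8 :=
    mul_le_mul_of_nonneg_left (pow_le_pow_right₀ p1 (by norm_num)) hhpos.le
  have q3 : 1 + x ≤ h * (1 + x) ^ 8 := by
    have a1 := rpow_half_le hx
    have a2 : h * (1 + x) ^ 2 ≤ h * (1 + x) ^ 8 :=
      mul_le_mul_of_nonneg_left (pow_le_pow_right₀ p1 (by norm_num)) hhpos.le
    have a3 : 1 + x ≤ h * (1 + x) ^ 2 := by
      calc 1 + x = 1 * (1 + x) := by ring
        _ ≤ (h * (1 + x)) * (1 + x) := by gcongr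
        _ = _ := by ring
    linarith
  have hP : 0 < h * (1 + x) ^ 8 := by positivity
  have hd2 : δ ^ 2 ≤ δ := by nlinarith
  have e3 : (((2 + δ) * x ^ (1 + δ)) *
    (A * x ^ (δ - 1) - (1 / Z) * (x * v ^ 2))
    + (1 / Z) * (v ^ 2 - 2 * δ * ρ * x ^ δ * v)) =
    (2 + δ) * A * x ^ (2 * δ) - (2 + δ) * (1 / Z) * (x ^ 2 * x ^ δ) * v ^ 2 + (1 / Z) * v ^ 2 -
      (1 / Z) * (2 * δ * ρ * x ^ δ * v) := by
    rw [← e1, ← e2]; ring
  rw [e3]
  have hK1 : 0 ≤ (K + 10) := by linarith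
  have m1 := mul_le_mul_of_nonneg_left q1 (show 0 ≤ 9 * (K + 10) ^ 2 * δ ^ 2 by positivity)
  have m2 := mul_le_mul_of_nonneg_left q2 (show 0 ≤ 12 * (K + 10) * δ ^ 2 by positivity)
  have m3 := mul_le_mul_of_nonneg_left q2 (show 0 ≤ 3 * (K + 10) ^ 2 * δ ^ 2 by positivity)
  have m4 := mul_le_mul_of_nonneg_left q3 (show 0 ≤ 162 * δ by positivity)
  have m5 : 12 * (K + 10) * δ ^ 2 * (h * (1 + x) ^ 8) ≤ 12 * (K + 10) * δ * (h * (1 + x) ^ 8) := by
    gcongr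
  have m6 : 3 * (K + 10) ^ 2 * δ ^ 2 * (h * (1 + x) ^ 8) ≤
      3 * (K + 10) ^ 2 * δ * (h * (1 + x) ^ 8) := by
    gcongr
  constructor
  · linarith
  · linarith

lemma Rf_lower (h0 : 0 < δ) (h1 : δ ≤ 1/2) (hK : 0 ≤ K) (hZ : 1/3 ≤ Z) (hA0 : 0 ≤ A)
    (hA1 : A ≤ 54 * δ) (hρ0 : 0 ≤ ρ) (hρ : ρ ≤ 2)
    (hv : |1 - ρ| ≤ K * δ) (hx : 0 < x) :
    -((9 * (K + 10) ^ 2 + 12 * (K + 10)) * δ ^ 2 * g8 x) ≤ Rf A Z ρ δ x := by
  have h := (terms h0 h1 hK hZ hA0 hA1 hρ0 hρ hv hx).1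
  have hw := w_le (q := 2 + δ) (by linarith) hx
  have hw0 := Real.exp_pos (-x ^ (2 + δ))
  have hX : 0 ≤ (9 * (K + 10) ^ 2 + 12 * (K + 10)) * δ ^ 2 *
    (x ^ (-(1/2) : ℝ) * (1 + x) ^ 8) := by positivity
  unfold Rf g8
  have a1 := mul_le_mul_of_nonneg_left h hw0.le
  have a2 := mul_le_mul_of_nonneg_right hw hX
  linarith

lemma Rf_upper (h0 : 0 < δ) (h1 : δ ≤ 1/2) (hK : 0 ≤ K) (hZ : 1/3 ≤ Z) (hA0 : 0 ≤ A)
    (hA1 : A ≤ 54 * δ) (hρ0 : 0 ≤ ρ) (hρ : ρ ≤ 2)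
    (hv : |1 - ρ| ≤ K * δ) (hx : 0 < x) :
    Rf A Z ρ δ x ≤ (162 + 3 * (K + 10) ^ 2 + 12 * (K + 10)) * δ * g8 x := by
  have h := (terms h0 h1 hK hZ hA0 hA1 hρ0 hρ hv hx).2
  have hw := w_le (q := 2 + δ) (by linarith) hx
  have hw0 := Real.exp_pos (-x ^ (2 + δ))
  have hX : 0 ≤ (162 + 3 * (K + 10) ^ 2 + 12 * (K + 10)) * δ *
    (x ^ (-(1/2) : ℝ) * (1 + x) ^ 8) := by positivity
  unfold Rf g8
  have a1 := mul_le_mul_of_nonneg_left h hw0.le
  have a2 := mul_le_mul_of_nonneg_right hw hX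
  linarith

lemma Rf_abs (h0 : 0 < δ) (h1 : δ ≤ 1/2) (hK : 0 ≤ K) (hZ : 1/3 ≤ Z) (hA0 : 0 ≤ A)
    (hA1 : A ≤ 54 * δ) (hρ0 : 0 ≤ ρ) (hρ : ρ ≤ 2)
    (hv : |1 - ρ| ≤ K * δ) (hx : 0 < x) :
    |Rf A Z ρ δ x| ≤ (162 + 12 * (K + 10) ^ 2 + 12 * (K + 10)) * δ * g8 x := by
  have a1 := Rf_lower h0 h1 hK hZ hA0 hA1 hρ0 hρ hv hx
  have a2 := Rf_upper h0 h1 hK hZ hA0 hA1 hρ0 hρ hv hx
  have hg := g8_nonneg hx
  have hd2 : δ ^ 2 ≤ δ := by nlinarith
  have m1 : (9 * (K + 10) ^ 2 + 12 * (K + 10)) * δ ^ 2 * g8 x ≤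
      (9 * (K + 10) ^ 2 + 12 * (K + 10)) * δ * g8 x := by gcongr
  have m2 : 0 ≤ (162 + 3 * (K + 10) ^ 2) * δ * g8 x := by positivity
  have m3 : 0 ≤ (9 * (K + 10) ^ 2) * δ * g8 x := by positivity
  rw [abs_le]
  constructor <;> linarith

/-- bound for `bf` -/
lemma bf_abs (h0 : 0 < δ) (h1 : δ ≤ 1/2) (hK : 0 ≤ K) (hZ : 1/3 ≤ Z) (hA0 : 0 ≤ A)
    (hρ0 : 0 ≤ ρ) (hρ : ρ ≤ 2) (hv : |1 - ρ| ≤ K * δ) (hx : 0 < x) :
    |bf A Z ρ δ x| ≤ A * (x ^ (δ - 1) * Real.exp (1 - x)) +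
      3 * (K + 10) ^ 2 * δ ^ 2 * (x * (x ^ (-(1/2) : ℝ) * (1 + x) ^ 4 * Real.exp (1 - x))) := by
  have hsq := v_sq h0 h1 hK hρ0 hρ hv hx
  have hw := w_le (q := 2 + δ) (by linarith) hx
  have hw0 := Real.exp_pos (-x ^ (2 + δ))
  have hp : 0 < x ^ (δ - 1) := Real.rpow_pos_of_pos hx _
  have hh : 0 < x ^ (-(1/2) : ℝ) := Real.rpow_pos_of_pos hx _
  have hZi : 1 / Z ≤ 3 := by
    rw [div_le_iff₀ (by linarith)]; linarith
  have hZi0 : 0 < 1 / Z := by positivity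
  unfold bf
  rw [abs_mul, abs_of_pos hw0]
  have h2 : |A * x ^ (δ - 1) - 1 / Z * (x * (1 - ρ * x ^ δ) ^ 2)| ≤
      A * x ^ (δ - 1) + 3 * (x * ((K + 10) ^ 2 * δ ^ 2 * (x ^ (-(1/2) : ℝ) * (1 + x) ^ 4))) := by
    refine (abs_sub _ _).trans ?_
    rw [abs_of_nonneg (show 0 ≤ A * x ^ (δ - 1) by positivity),
      abs_of_nonneg (show 0 ≤ 1 / Z * (x * (1 - ρ * x ^ δ) ^ 2) by positivity)]
    gcongr
  calc Real.exp (-x ^ (2 + δ)) * |A * x ^ (δ - 1) - 1 / Z * (x * (1 - ρ * x ^ δ) ^ 2)|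
      ≤ Real.exp (1 - x) * (A * x ^ (δ - 1) +
        3 * (x * ((K + 10) ^ 2 * δ ^ 2 * (x ^ (-(1/2) : ℝ) * (1 + x) ^ 4)))) := by gcongr
    _ = _ := by ring

/-- bound for `x² bf`-type boundary terms -/
lemma xbf_abs (h0 : 0 < δ) (h1 : δ ≤ 1/2) (hK : 0 ≤ K) (hZ : 1/3 ≤ Z) (hA0 : 0 ≤ A)
    (hρ0 : 0 ≤ ρ) (hρ : ρ ≤ 2) (hv : |1 - ρ| ≤ K * δ) (hx : 0 < x) :
    x * |bf A Z ρ δ x| ≤ (A + 3 * (K + 10) ^ 2 * δ ^ 2) *
      ((1 + x) ^ 6 * Real.exp (1 - x)) := by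
  have hb := bf_abs h0 h1 hK hZ hA0 hρ0 hρ hv hx
  have hxd : x ^ δ ≤ 1 + x := rpow_le_one_add h0.le (by linarith) hx
  have e1 : x * x ^ (δ - 1) = x ^ δ := by
    rw [Real.rpow_sub_one hx.ne']; field_simp
  have e2 : x * x ^ (-(1/2) : ℝ) ≤ 1 + x := by
    have : x * x ^ (-(1/2) : ℝ) = x ^ (1/2 : ℝ) := by
      rw [show (1/2 : ℝ) = 1 + (-(1/2)) by norm_num, Real.rpow_add hx, Real.rpow_one]
      norm_num
    rw [this]
    exact rpow_le_one_add (by norm_num) (by norm_num) hx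
  have hE := Real.exp_pos (1 - x)
  have p1 : (1:ℝ) ≤ 1 + x := by linarith
  calc x * |bf A Z ρ δ x| ≤ x * (A * (x ^ (δ - 1) * Real.exp (1 - x)) +
      3 * (K + 10) ^ 2 * δ ^ 2 * (x * (x ^ (-(1/2) : ℝ) * (1 + x) ^ 4 * Real.exp (1 - x)))) := by
        gcongr
    _ = A * ((x * x ^ (δ - 1)) * Real.exp (1 - x)) + 3 * (K + 10) ^ 2 * δ ^ 2 *
      ((x * x ^ (-(1/2) : ℝ)) * (x * (1 + x) ^ 4) * Real.exp (1 - x)) := by ring
    _ ≤ A * ((1 + x) ^ 6 * Real.exp (1 - x)) + 3 * (K + 10) ^ 2 * δ ^ 2 *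
      ((1 + x) * ((1 + x) * (1 + x) ^ 4) * Real.exp (1 - x)) := by
        rw [e1]
        have : x ^ δ ≤ (1 + x) ^ 6 := by
          refine hxd.trans ?_
          have := pow_le_pow_right₀ p1 (show 1 ≤ 6 by norm_num)
          simpa using this
        gcongr
        linarith
    _ = _ := by ring

end bounds

/-- the boundary envelope -/
noncomputable def Ee (x : ℝ) : ℝ := x * ((1 + x) ^ 6 * Real.exp (1 - x))

lemma Ee_zero : Tendsto Ee (𝓝[>] 0) (𝓝 0) := by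
  have h : Continuous Ee := by unfold Ee; fun_prop
  have h2 := h.tendsto 0
  have h3 : Ee 0 = 0 := by simp [Ee]
  rw [h3] at h2
  exact h2.mono_left nhdsWithin_le_nhds

lemma Ee_top : Tendsto Ee atTop (𝓝 0) := by
  have h1 := (Real.tendsto_pow_mul_exp_neg_atTop_nhds_zero 7).comp
    (tendsto_atTop_add_const_left atTop (1:ℝ) tendsto_id)
  have h2 := h1.const_mul (Real.exp 2)
  rw [mul_zero] at h2
  refine tendsto_of_tendsto_of_tendsto_of_le_of_le' tendsto_const_nhds h2 ?_ ?_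
  · filter_upwards [eventually_ge_atTop 0] with x hx
    unfold Ee; positivity
  · filter_upwards [eventually_ge_atTop 0] with x hx
    simp only [Function.comp, id]
    have e : Real.exp (1 - x) = Real.exp 2 * Real.exp (-(1 + x)) := by
      rw [← Real.exp_add]; ring_nf
    unfold Ee
    rw [e]
    have h3 : x * (1 + x) ^ 6 ≤ (1 + x) ^ 7 := by
      have : 0 ≤ (1 + x) ^ 6 := by positivity
      calc x * (1 + x) ^ 6 ≤ (1 + x) * (1 + x) ^ 6 := by gcongr; linarith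
        _ = _ := by ring
    calc x * ((1 + x) ^ 6 * (Real.exp 2 * Real.exp (-(1 + x))))
        = Real.exp 2 * ((x * (1 + x) ^ 6) * Real.exp (-(1 + x))) := by ring
      _ ≤ _ := by gcongr

lemma one_sub_cos_le_sq (y : ℝ) : 1 - Real.cos y ≤ y ^ 2 / 2 := by
  have := Real.one_sub_sq_div_two_le_cos (x := y)
  linarith

lemma one_sub_cos_le_two (y : ℝ) : 1 - Real.cos y ≤ 2 := by
  have := Real.neg_one_le_cos y
  linarith

lemma one_sub_cos_nonneg (y : ℝ) : 0 ≤ 1 - Real.cos y := by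
  have := Real.cos_le_one y
  linarith

lemma one_sub_cos_le_self {y : ℝ} (hy : 0 ≤ y) : 1 - Real.cos y ≤ y := by
  rcases le_total y 2 with h | h
  · have := one_sub_cos_le_sq y
    nlinarith
  · have := one_sub_cos_le_two y
    linarith

lemma one_sub_cos_ge {y : ℝ} (h0 : 0 ≤ y) (h1 : y ≤ 1) : y ^ 2 / 3 ≤ 1 - Real.cos y := by
  have := Real.cos_bound (x := y) (by rw [abs_of_nonneg h0]; exact h1)
  rw [abs_of_nonneg h0] at this
  have h2 := (abs_le.mp this).2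
  have h3 : y ^ 4 ≤ y ^ 2 := pow_le_pow_of_le_one h0 h1 (by norm_num)
  nlinarith

section main

variable {A Z ρ δ K : ℝ}

lemma contOn_bf (A Z ρ δ : ℝ) : ContinuousOn (bf A Z ρ δ) (Ioi 0) :=
  fun _ hx => (hasDerivAt_bf A Z ρ δ hx).continuousAt.continuousWithinAt

lemma contOn_Rf (A Z ρ δ : ℝ) : ContinuousOn (Rf A Z ρ δ) (Ioi 0) := by
  unfold Rf
  have h1 := contOn_rpow (1 + δ)
  have h2 := contOn_rpow (δ - 1)
  have h3 := contOn_rpow δ
  have h4 := contOn_w (2 + δ)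
  fun_prop

lemma contOn_main (δ : ℝ) :
    ContinuousOn (fun x : ℝ => x ^ (δ - 2) * Real.exp (-x ^ (2 + δ))) (Ioi 0) :=
  (contOn_rpow _).mul (contOn_w _)

lemma xd_w_le (h0 : 0 < δ) (h1 : δ ≤ 1) {x : ℝ} (hx : 0 < x) :
    x ^ δ * Real.exp (-x ^ (2 + δ)) ≤ 3 := by
  have hxd := rpow_le_one_add h0.le h1 hx
  have hw := w_le (q := 2 + δ) (by linarith) hx
  have hw0 := Real.exp_pos (-x ^ (2 + δ))
  have h2 : (1 + x) * Real.exp (1 - x) ≤ Real.exp 1 := by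
    rw [sub_eq_add_neg, Real.exp_add]
    have : 1 + x ≤ Real.exp x := by have := Real.add_one_le_exp x; linarith
    have h3 : Real.exp x * Real.exp (-x) = 1 := by rw [← Real.exp_add]; simp
    have h4 := Real.exp_pos (-x)
    have h5 := Real.exp_pos 1
    have h6 : (1 + x) * Real.exp (-x) ≤ 1 := by nlinarith
    calc (1 + x) * (Real.exp 1 * Real.exp (-x)) = Real.exp 1 * ((1 + x) * Real.exp (-x)) := by ring
      _ ≤ Real.exp 1 * 1 := by gcongr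
      _ = _ := by ring
  calc x ^ δ * Real.exp (-x ^ (2 + δ)) ≤ (1 + x) * Real.exp (1 - x) := by gcongr
    _ ≤ 3 := h2.trans exp_one_le

lemma xd2 {x : ℝ} (hx : 0 < x) : x ^ 2 * x ^ (δ - 2) = x ^ δ := by
  rw [← Real.rpow_natCast x 2, ← Real.rpow_add hx]; congr 1; push_cast; ring

lemma xd_w_le_Gf (h0 : 0 < δ) (h1 : δ ≤ 1) {x : ℝ} (hx : 0 < x) :
    x ^ δ * Real.exp (-x ^ (2 + δ)) ≤ Gf x := by
  have hxd := rpow_le_one_add h0.le h1 hx
  have hw := w_le (q := 2 + δ) (by linarith) hx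
  have hhpos : 0 < x ^ (-(1/2) : ℝ) := Real.rpow_pos_of_pos hx _
  have p1 : (1:ℝ) ≤ 1 + x := by linarith
  have h2 : 1 + x ≤ x ^ (-(1/2) : ℝ) * (1 + x) ^ 10 := by
    have a1 := rpow_half_le hx
    have a2 : x ^ (-(1/2) : ℝ) * (1 + x) ^ 2 ≤ x ^ (-(1/2) : ℝ) * (1 + x) ^ 10 :=
      mul_le_mul_of_nonneg_left (pow_le_pow_right₀ p1 (by norm_num)) hhpos.le
    have a3 : 1 + x ≤ x ^ (-(1/2) : ℝ) * (1 + x) ^ 2 := by
      calc 1 + x = 1 * (1 + x) := by ring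
        _ ≤ (x ^ (-(1/2) : ℝ) * (1 + x)) * (1 + x) := by gcongr
        _ = _ := by ring
    linarith
  unfold Gf
  calc x ^ δ * Real.exp (-x ^ (2 + δ)) ≤ (1 + x) * Real.exp (1 - x) := by gcongr
    _ ≤ _ := by gcongr

/-- integrability of the main term -/
lemma int_main (h0 : 0 < δ) (h1 : δ ≤ 1) (t : ℝ) :
    IntegrableOn (fun x : ℝ => (1 - Real.cos (t * x)) *
      (x ^ (δ - 2) * Real.exp (-x ^ (2 + δ)))) (Ioi 0) := by
  have hg : IntegrableOn (fun x => t ^ 2 / 2 * Gf x) (Ioi 0) := int_Gf.const_mul _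
  refine int_of_le ((by fun_prop : Continuous fun x : ℝ =>
    (1 - Real.cos (t * x))).continuousOn.mul (contOn_main δ)) hg fun x hx => ?_
  have hp : 0 < x ^ (δ - 2) := Real.rpow_pos_of_pos hx _
  have hw0 := Real.exp_pos (-x ^ (2 + δ))
  have hc := one_sub_cos_nonneg (t * x)
  rw [abs_of_nonneg (by positivity)]
  have h2 := one_sub_cos_le_sq (t * x)
  have h3 := xd_w_le_Gf h0 h1 hx
  calc (1 - Real.cos (t * x)) * (x ^ (δ - 2) * Real.exp (-x ^ (2 + δ)))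
      ≤ ((t * x) ^ 2 / 2) * (x ^ (δ - 2) * Real.exp (-x ^ (2 + δ))) := by gcongr
    _ = t ^ 2 / 2 * ((x ^ 2 * x ^ (δ - 2)) * Real.exp (-x ^ (2 + δ))) := by ring
    _ ≤ _ := by rw [xd2 hx]; gcongr

lemma main_pt (h0 : 0 < δ) (h1 : δ ≤ 1) {t x : ℝ} (ht : 0 < t) (hx : 0 < x) (hx1 : x ≤ 1)
    (htx : t * x ≤ 1) :
    t ^ 2 / 9 * x ≤ (1 - Real.cos (t * x)) * (x ^ (δ - 2) * Real.exp (-x ^ (2 + δ))) := by
  have h2 := one_sub_cos_ge (y := t * x) (by positivity) htx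
  have h3 := w_ge (q := 2 + δ) (by linarith) hx hx1
  have h4 : x ^ (-1 : ℝ) ≤ x ^ (δ - 2) :=
    Real.rpow_le_rpow_of_exponent_ge hx hx1 (by linarith)
  have h5 : 0 < x ^ (-1 : ℝ) := Real.rpow_pos_of_pos hx _
  have h6 : x ^ 2 * x ^ (-1 : ℝ) = x := by
    rw [Real.rpow_neg_one]; field_simp
  calc t ^ 2 / 9 * x = t ^ 2 / 9 * (x ^ 2 * x ^ (-1 : ℝ)) := by rw [h6]
    _ = ((t * x) ^ 2 / 3) * (x ^ (-1 : ℝ) * (1/3)) := by ring
    _ ≤ _ := by
      have := one_sub_cos_nonneg (t * x)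
      gcongr

lemma main_lower (h0 : 0 < δ) (h1 : δ ≤ 1) {t : ℝ} (ht : 0 < t) :
    min 1 (t ^ 2) / 18 ≤ ∫ x in Ioi 0, (1 - Real.cos (t * x)) *
      (x ^ (δ - 2) * Real.exp (-x ^ (2 + δ))) := by
  have key : ∀ c : ℝ, 0 < c → c ≤ 1 → t * c ≤ 1 → t ^ 2 * c ^ 2 / 18 ≤
      ∫ x in Ioi 0, (1 - Real.cos (t * x)) * (x ^ (δ - 2) * Real.exp (-x ^ (2 + δ))) := by
    intro c hc hc1 htc
    have := lower_Ioc (c := c) (g := fun x => t ^ 2 / 9 * x) (int_main h0 h1 t)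
      (fun x hx => by
        have := one_sub_cos_nonneg (t * x)
        positivity)
      ((Continuous.integrableOn_Icc (by fun_prop)).mono_set Ioc_subset_Icc_self)
      (fun x hx hxc => main_pt h0 h1 ht hx (hxc.trans hc1)
        ((mul_le_mul_of_nonneg_left hxc ht.le).trans htc))
    rw [← intervalIntegral.integral_of_le hc.le, intervalIntegral.integral_const_mul,
      integral_id] at this
    refine le_trans (le_of_eq ?_) this
    ring
  rcases le_total t 1 with h | h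
  · have h2 : min 1 (t ^ 2) = t ^ 2 := min_eq_right (by nlinarith)
    have := key 1 one_pos le_rfl (by linarith)
    rw [h2]
    linarith
  · have h2 : min 1 (t ^ 2) = 1 := min_eq_left (by nlinarith)
    have := key (1 / t) (by positivity) (by rw [div_le_iff₀ ht]; linarith)
      (by rw [mul_one_div, div_self ht.ne'])
    rw [h2]
    have e : t ^ 2 * (1 / t) ^ 2 = 1 := by field_simp
    rw [e] at this
    exact this

lemma main_upper (h0 : 0 < δ) (h1 : δ ≤ 1) {t : ℝ} (ht : 0 < t) :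
    ∫ x in Ioi 0, (1 - Real.cos (t * x)) *
      (x ^ (δ - 2) * Real.exp (-x ^ (2 + δ))) ≤ 15 / 2 * t := by
  have hc : 0 < 1 / t := by positivity
  have hint := int_main h0 h1 t
  have hU : Ioc (0:ℝ) (1 / t) ∪ Ioi (1 / t) = Ioi 0 := Ioc_union_Ioi_eq_Ioi hc.le
  rw [← hU, setIntegral_union Ioc_disjoint_Ioi_same measurableSet_Ioi
    (hint.mono_set Ioc_subset_Ioi_self) (hint.mono_set (Ioi_subset_Ioi hc.le))]
  have pt : ∀ x, 0 < x → x ^ (δ - 2) * Real.exp (-x ^ (2 + δ)) ≤ 3 * x ^ (-2 : ℝ) := by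
    intro x hx
    have h3 := xd_w_le h0 h1 hx
    have e : x ^ (δ - 2) = x ^ (-2 : ℝ) * x ^ δ := by
      rw [← Real.rpow_add hx]; congr 1; ring
    have hp : 0 < x ^ (-2 : ℝ) := Real.rpow_pos_of_pos hx _
    rw [e]
    calc x ^ (-2 : ℝ) * x ^ δ * Real.exp (-x ^ (2 + δ))
        = x ^ (-2 : ℝ) * (x ^ δ * Real.exp (-x ^ (2 + δ))) := by ring
      _ ≤ x ^ (-2 : ℝ) * 3 := by gcongr
      _ = _ := by ring
  have P1 : ∫ x in Ioc 0 (1 / t), (1 - Real.cos (t * x)) *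
      (x ^ (δ - 2) * Real.exp (-x ^ (2 + δ))) ≤ 3 / 2 * t := by
    have hcst : IntegrableOn (fun _ : ℝ => 3 / 2 * t ^ 2) (Ioc 0 (1 / t)) :=
      (continuous_const.integrableOn_Icc).mono_set Ioc_subset_Icc_self
    have := setIntegral_mono_on (hint.mono_set Ioc_subset_Ioi_self) hcst measurableSet_Ioc
      (fun x hx => by
        have hx0 : 0 < x := hx.1
        have h2 := one_sub_cos_le_sq (t * x)
        have h3 := pt x hx0
        have h4 : x ^ 2 * x ^ (-2 : ℝ) = 1 := by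
          rw [← Real.rpow_natCast x 2, ← Real.rpow_add hx0]; norm_num
        calc (1 - Real.cos (t * x)) * (x ^ (δ - 2) * Real.exp (-x ^ (2 + δ)))
            ≤ ((t * x) ^ 2 / 2) * (3 * x ^ (-2 : ℝ)) := by gcongr
          _ = 3 / 2 * t ^ 2 * (x ^ 2 * x ^ (-2 : ℝ)) := by ring
          _ = 3 / 2 * t ^ 2 := by rw [h4, mul_one])
    refine this.trans (le_of_eq ?_)
    simp
    rw [max_eq_left (by positivity)]
    field_simp
  have P2 : ∫ x in Ioi (1 / t), (1 - Real.cos (t * x)) *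
      (x ^ (δ - 2) * Real.exp (-x ^ (2 + δ))) ≤ 6 * t := by
    have hi : IntegrableOn (fun x : ℝ => 6 * x ^ (-2 : ℝ)) (Ioi (1 / t)) :=
      (integrableOn_Ioi_rpow_of_lt (by norm_num) hc).const_mul 6
    have := setIntegral_mono_on (hint.mono_set (Ioi_subset_Ioi hc.le)) hi measurableSet_Ioi
      (fun x hx => by
        have hx0 : 0 < x := hc.trans hx
        have h2 := one_sub_cos_le_two (t * x)
        have h3 := pt x hx0
        have hp : 0 < x ^ (-2 : ℝ) := Real.rpow_pos_of_pos hx0 _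
        calc (1 - Real.cos (t * x)) * (x ^ (δ - 2) * Real.exp (-x ^ (2 + δ)))
            ≤ 2 * (3 * x ^ (-2 : ℝ)) := by gcongr
          _ = _ := by ring)
    refine this.trans (le_of_eq ?_)
    rw [integral_const_mul, integral_Ioi_rpow_of_lt (by norm_num) hc]
    norm_num
    rw [Real.rpow_neg_one, inv_inv]
  linarith

/-- integrability of `Rf` against bounded functions -/
lemma int_Rf (h0 : 0 < δ) (h1 : δ ≤ 1/2) (hK : 0 ≤ K) (hZ : 1/3 ≤ Z) (hA0 : 0 ≤ A)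
    (hA1 : A ≤ 54 * δ) (hρ0 : 0 ≤ ρ) (hρ : ρ ≤ 2) (hv : |1 - ρ| ≤ K * δ) (t : ℝ) :
    IntegrableOn (fun x : ℝ => (1 - Real.cos (t * x)) * Rf A Z ρ δ x) (Ioi 0) := by
  have hg : IntegrableOn (fun x => 2 * (162 + 12 * (K + 10) ^ 2 + 12 * (K + 10)) * δ * g8 x)
    (Ioi 0) := int_g8.const_mul _
  refine int_of_le ((by fun_prop : Continuous fun x : ℝ =>
    (1 - Real.cos (t * x))).continuousOn.mul (contOn_Rf A Z ρ δ)) hg fun x hx => ?_
  have hr := Rf_abs h0 h1 hK hZ hA0 hA1 hρ0 hρ hv hx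
  rw [abs_mul, abs_of_nonneg (one_sub_cos_nonneg _)]
  have h2 := one_sub_cos_le_two (t * x)
  have h3 := one_sub_cos_nonneg (t * x)
  calc (1 - Real.cos (t * x)) * |Rf A Z ρ δ x|
      ≤ 2 * ((162 + 12 * (K + 10) ^ 2 + 12 * (K + 10)) * δ * g8 x) := by gcongr
    _ = _ := by ring

lemma int_bf (h0 : 0 < δ) (h1 : δ ≤ 1/2) (hK : 0 ≤ K) (hZ : 1/3 ≤ Z) (hA0 : 0 ≤ A)
    (hρ0 : 0 ≤ ρ) (hρ : ρ ≤ 2) (hv : |1 - ρ| ≤ K * δ) :
    IntegrableOn (bf A Z ρ δ) (Ioi 0) := by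
  have hg1 : IntegrableOn (fun x : ℝ => A * (x ^ (δ - 1) * Real.exp (1 - x))) (Ioi 0) :=
    (int_rpow_exp (by linarith)).const_mul _
  have hg2 : IntegrableOn (fun x : ℝ => 3 * (K + 10) ^ 2 * δ ^ 2 * Gf x) (Ioi 0) :=
    int_Gf.const_mul _
  refine int_of_le (contOn_bf A Z ρ δ) (hg1.add hg2) fun x hx => ?_
  refine (bf_abs h0 h1 hK hZ hA0 hρ0 hρ hv hx).trans ?_
  simp only [Pi.add_apply]
  have h3 : x * (x ^ (-(1/2) : ℝ) * (1 + x) ^ 4 * Real.exp (1 - x)) ≤ Gf x := by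
    refine le_trans ?_ (x_g8_le hx)
    unfold g8
    have p1 : (1:ℝ) ≤ 1 + x := by linarith
    have hhpos : 0 < x ^ (-(1/2) : ℝ) := Real.rpow_pos_of_pos hx _
    have := pow_le_pow_right₀ p1 (show 4 ≤ 8 by norm_num)
    gcongr
  gcongr

lemma bd_abs (h0 : 0 < δ) (h1 : δ ≤ 1/2) (hK : 0 ≤ K) (hZ : 1/3 ≤ Z) (hA0 : 0 ≤ A)
    (hρ0 : 0 ≤ ρ) (hρ : ρ ≤ 2) (hv : |1 - ρ| ≤ K * δ) {x : ℝ} (hx : 0 < x) :
    x ^ 2 * |bf A Z ρ δ x| ≤ (A + 3 * (K + 10) ^ 2 * δ ^ 2) * Ee x := by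
  have := xbf_abs h0 h1 hK hZ hA0 hρ0 hρ hv hx
  calc x ^ 2 * |bf A Z ρ δ x| = x * (x * |bf A Z ρ δ x|) := by ring
    _ ≤ x * ((A + 3 * (K + 10) ^ 2 * δ ^ 2) * ((1 + x) ^ 6 * Real.exp (1 - x))) := by gcongr
    _ = _ := by unfold Ee; ring

lemma tendsto_of_Ee {f : ℝ → ℝ} {D : ℝ} (hf : ∀ x, 0 < x → |f x| ≤ D * Ee x) :
    Tendsto f (𝓝[>] 0) (𝓝 0) ∧ Tendsto f atTop (𝓝 0) := by
  constructor
  · refine squeeze_zero_norm' (a := fun x => D * Ee x) ?_ ?_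
    · filter_upwards [self_mem_nhdsWithin] with x hx
      exact hf x hx
    · have := Ee_zero.const_mul D
      rwa [mul_zero] at this
  · refine squeeze_zero_norm' (a := fun x => D * Ee x) ?_ ?_
    · filter_upwards [eventually_gt_atTop 0] with x hx
      exact hf x hx
    · have := Ee_top.const_mul D
      rwa [mul_zero] at this

/-- first integration by parts -/
lemma ibp1 (h0 : 0 < δ) (h1 : δ ≤ 1/2) (hK : 0 ≤ K) (hZ : 1/3 ≤ Z) (hA0 : 0 ≤ A)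
    (hA1 : A ≤ 54 * δ) (hρ0 : 0 ≤ ρ) (hρ : ρ ≤ 2) (hv : |1 - ρ| ≤ K * δ) (t : ℝ) :
    t * ∫ x in Ioi 0, Real.sin (t * x) * bf A Z ρ δ x =
      (1 - δ) * A * (∫ x in Ioi 0, (1 - Real.cos (t * x)) *
        (x ^ (δ - 2) * Real.exp (-x ^ (2 + δ)))) +
      ∫ x in Ioi 0, (1 - Real.cos (t * x)) * Rf A Z ρ δ x := by
  have hu : ∀ x ∈ Ioi (0:ℝ), HasDerivAt (fun x : ℝ => 1 - Real.cos (t * x))
      (t * Real.sin (t * x)) x := by
    intro x _
    have h1 : HasDerivAt (fun x : ℝ => t * x) t x := by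
      simpa using (hasDerivAt_id x).const_mul t
    have := (h1.cos).const_sub 1
    refine this.congr_deriv ?_
    ring
  have hmain := int_main h0 (by linarith) t
  have hRf := int_Rf h0 h1 hK hZ hA0 hA1 hρ0 hρ hv t
  have huv' : IntegrableOn ((fun x : ℝ => 1 - Real.cos (t * x)) * fun x =>
      (-((1 - δ) * A * (x ^ (δ - 2) * Real.exp (-x ^ (2 + δ))) + Rf A Z ρ δ x))) (Ioi 0) := by
    have := ((hmain.const_mul ((1 - δ) * A)).add hRf).neg
    refine this.congr (Eventually.of_forall fun x => ?_)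
    simp only [Pi.neg_apply, Pi.add_apply, Pi.mul_apply]
    ring
  have hbf := int_bf h0 h1 hK hZ hA0 hρ0 hρ hv
  have hu'v : IntegrableOn ((fun x : ℝ => t * Real.sin (t * x)) * bf A Z ρ δ) (Ioi 0) := by
    refine int_of_le ((by fun_prop : Continuous fun x : ℝ =>
      (t * Real.sin (t * x))).continuousOn.mul (contOn_bf A Z ρ δ))
      (g := fun x => |t| * |bf A Z ρ δ x|) (hbf.abs.const_mul _) fun x _ => ?_
    simp only [Pi.mul_apply]
    rw [abs_mul, abs_mul]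
    have := Real.abs_sin_le_one (t * x)
    have h5 := abs_nonneg t
    have h6 := abs_nonneg (bf A Z ρ δ x)
    nlinarith [mul_le_mul_of_nonneg_left this h5]
  have hb : ∀ x, 0 < x → |((fun x : ℝ => 1 - Real.cos (t * x)) * bf A Z ρ δ) x| ≤
      (t ^ 2 / 2 * (A + 3 * (K + 10) ^ 2 * δ ^ 2)) * Ee x := by
    intro x hx
    simp only [Pi.mul_apply]
    rw [abs_mul, abs_of_nonneg (one_sub_cos_nonneg _)]
    have h2 := one_sub_cos_le_sq (t * x)
    have h3 := bd_abs h0 h1 hK hZ hA0 hρ0 hρ hv hx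
    calc (1 - Real.cos (t * x)) * |bf A Z ρ δ x| ≤ ((t * x) ^ 2 / 2) * |bf A Z ρ δ x| := by gcongr
      _ = t ^ 2 / 2 * (x ^ 2 * |bf A Z ρ δ x|) := by ring
      _ ≤ t ^ 2 / 2 * ((A + 3 * (K + 10) ^ 2 * δ ^ 2) * Ee x) := by gcongr
      _ = _ := by ring
  obtain ⟨hz, hi⟩ := tendsto_of_Ee hb
  have key := integral_Ioi_mul_deriv_eq_deriv_mul hu (fun x hx => hasDerivAt_bf A Z ρ δ hx)
    huv' hu'v hz hi
  have e1 : ∫ x in Ioi (0:ℝ), t * Real.sin (t * x) * bf A Z ρ δ x =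
      t * ∫ x in Ioi 0, Real.sin (t * x) * bf A Z ρ δ x := by
    rw [← integral_const_mul]
    congr 1; ext x; ring
  have e2 : ∫ x in Ioi (0:ℝ), (1 - Real.cos (t * x)) *
      -((1 - δ) * A * (x ^ (δ - 2) * Real.exp (-x ^ (2 + δ))) + Rf A Z ρ δ x) =
      -((1 - δ) * A * (∫ x in Ioi 0, (1 - Real.cos (t * x)) *
        (x ^ (δ - 2) * Real.exp (-x ^ (2 + δ)))) +
      ∫ x in Ioi 0, (1 - Real.cos (t * x)) * Rf A Z ρ δ x) := by
    rw [← integral_const_mul, ← integral_add (hmain.const_mul ((1 - δ) * A)) hRf,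
      ← integral_neg]
    congr 1; ext x; ring
  rw [e1, e2] at key
  linarith

/-- second integration by parts: bound for the derivative -/
lemma ibp2 (h0 : 0 < δ) (h1 : δ ≤ 1/2) (hK : 0 ≤ K) (hZ : 1/3 ≤ Z) (hA0 : 0 ≤ A)
    (hA1 : A ≤ 54 * δ) (hρ0 : 0 ≤ ρ) (hρ : ρ ≤ 2) (hv : |1 - ρ| ≤ K * δ) {t : ℝ} (ht : 0 < t) :
    t * |∫ x in Ioi 0, Real.cos (t * x) * (x * bf A Z ρ δ x)| ≤
      (324 + (162 + 15 * (K + 10) ^ 2 + 12 * (K + 10)) * IG) * δ := by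
  have hu : ∀ x ∈ Ioi (0:ℝ), HasDerivAt (fun x : ℝ => Real.sin (t * x))
      (t * Real.cos (t * x)) x := by
    intro x _
    have h1 : HasDerivAt (fun x : ℝ => t * x) t x := by
      simpa using (hasDerivAt_id x).const_mul t
    refine (h1.sin).congr_deriv ?_
    ring
  set S : ℝ → ℝ := fun x => 1 / Z * (x * (1 - ρ * x ^ δ) ^ 2) * Real.exp (-x ^ (2 + δ)) +
    x * Rf A Z ρ δ x with hS
  have hvd : ∀ x ∈ Ioi (0:ℝ), HasDerivAt (fun x => x * bf A Z ρ δ x)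
      (A * (δ * x ^ (δ - 1) * Real.exp (-x ^ (2 + δ))) - S x) x := by
    intro x hx
    have hx : 0 < x := hx
    refine ((hasDerivAt_id x).mul (hasDerivAt_bf A Z ρ δ hx)).congr_deriv ?_
    have e1 : x ^ (δ - 1) = x * x ^ (δ - 2) := by
      rw [show δ - 2 = (δ - 1) - 1 by ring, Real.rpow_sub_one hx.ne' (δ - 1)]; field_simp
    simp only [hS, id]
    unfold bf
    rw [e1]
    ring
  have hSb : ∀ x, 0 < x → |S x| ≤ (162 + 15 * (K + 10) ^ 2 + 12 * (K + 10)) * δ * Gf x := by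
    intro x hx
    have hr := Rf_abs h0 h1 hK hZ hA0 hA1 hρ0 hρ hv hx
    have hsq := v_sq h0 h1 hK hρ0 hρ hv hx
    have hw := w_le (q := 2 + δ) (by linarith) hx
    have hw0 := Real.exp_pos (-x ^ (2 + δ))
    have hh : 0 < x ^ (-(1/2) : ℝ) := Real.rpow_pos_of_pos hx _
    have hZi : 1 / Z ≤ 3 := by
      rw [div_le_iff₀ (by linarith)]; linarith
    have hZi0 : 0 < 1 / Z := by positivity
    have hxg := x_g8_le hx
    have hd2 : δ ^ 2 ≤ δ := by nlinarith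
    have p1 : (1:ℝ) ≤ 1 + x := by linarith
    have hp8 := pow_le_pow_right₀ p1 (show 4 ≤ 8 by norm_num)
    have a1 : |1 / Z * (x * (1 - ρ * x ^ δ) ^ 2) * Real.exp (-x ^ (2 + δ))| ≤
        3 * (K + 10) ^ 2 * δ * (x * g8 x) := by
      rw [abs_of_nonneg (by positivity)]
      unfold g8
      calc 1 / Z * (x * (1 - ρ * x ^ δ) ^ 2) * Real.exp (-x ^ (2 + δ))
          ≤ 3 * (x * ((K + 10) ^ 2 * δ * (x ^ (-(1/2) : ℝ) * (1 + x) ^ 8))) *
            Real.exp (1 - x) := by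
            have : (1 - ρ * x ^ δ) ^ 2 ≤ (K + 10) ^ 2 * δ * (x ^ (-(1/2) : ℝ) * (1 + x) ^ 8) := by
              refine hsq.trans ?_
              gcongr
            gcongr
        _ = _ := by ring
    have a2 : |x * Rf A Z ρ δ x| ≤ (162 + 12 * (K + 10) ^ 2 + 12 * (K + 10)) * δ * (x * g8 x) := by
      rw [abs_mul, abs_of_pos hx]
      calc x * |Rf A Z ρ δ x| ≤ x * ((162 + 12 * (K + 10) ^ 2 + 12 * (K + 10)) * δ * g8 x) := by
            gcongr
        _ = _ := by ring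
    calc |S x| ≤ 3 * (K + 10) ^ 2 * δ * (x * g8 x) +
        (162 + 12 * (K + 10) ^ 2 + 12 * (K + 10)) * δ * (x * g8 x) :=
          (abs_add_le _ _).trans (add_le_add a1 a2)
      _ = (162 + 15 * (K + 10) ^ 2 + 12 * (K + 10)) * δ * (x * g8 x) := by ring
      _ ≤ _ := by gcongr
  have hPb : ∀ x, 0 < x → |A * (δ * x ^ (δ - 1) * Real.exp (-x ^ (2 + δ)))| ≤
      54 * δ * (δ * (x ^ (δ - 1) * Real.exp (1 - x))) := by
    intro x hx
    have hp : 0 < x ^ (δ - 1) := Real.rpow_pos_of_pos hx _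
    have hw := w_le (q := 2 + δ) (by linarith) hx
    rw [abs_of_nonneg (by positivity)]
    calc A * (δ * x ^ (δ - 1) * Real.exp (-x ^ (2 + δ)))
        ≤ 54 * δ * (δ * x ^ (δ - 1) * Real.exp (1 - x)) := by gcongr
      _ = _ := by ring
  have hg1 : IntegrableOn (fun x : ℝ => 54 * δ * (δ * (x ^ (δ - 1) * Real.exp (1 - x)))) (Ioi 0) :=
    ((int_rpow_exp (by linarith)).const_mul δ).const_mul (54 * δ)
  have hg2 : IntegrableOn (fun x : ℝ => (162 + 15 * (K + 10) ^ 2 + 12 * (K + 10)) * δ * Gf x)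
    (Ioi 0) := int_Gf.const_mul _
  have hvb : ∀ x, 0 < x → |(A * (δ * x ^ (δ - 1) * Real.exp (-x ^ (2 + δ))) - S x)| ≤
      54 * δ * (δ * (x ^ (δ - 1) * Real.exp (1 - x))) +
      (162 + 15 * (K + 10) ^ 2 + 12 * (K + 10)) * δ * Gf x := fun x hx =>
    (abs_sub _ _).trans (add_le_add (hPb x hx) (hSb x hx))
  have hcS : ContinuousOn (fun x => (A * (δ * x ^ (δ - 1) * Real.exp (-x ^ (2 + δ))) - S x))
      (Ioi 0) := by
    simp only [hS]
    have h1 := contOn_Rf A Z ρ δ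
    have h2 := contOn_rpow (δ - 1)
    have h3 := contOn_rpow δ
    have h4 := contOn_w (2 + δ)
    fun_prop
  have huv' : IntegrableOn ((fun x : ℝ => Real.sin (t * x)) * fun x =>
      (A * (δ * x ^ (δ - 1) * Real.exp (-x ^ (2 + δ))) - S x)) (Ioi 0) := by
    refine int_of_le ((by fun_prop : Continuous fun x : ℝ =>
      Real.sin (t * x)).continuousOn.mul hcS) (hg1.add hg2) fun x hx => ?_
    simp only [Pi.mul_apply, Pi.add_apply]
    rw [abs_mul]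
    have h3 := Real.abs_sin_le_one (t * x)
    have h4 := hvb x hx
    have h5 := abs_nonneg (A * (δ * x ^ (δ - 1) * Real.exp (-x ^ (2 + δ))) - S x)
    nlinarith
  have hxb : ∀ x, 0 < x → |x * bf A Z ρ δ x| ≤ (A + 3 * (K + 10) ^ 2 * δ ^ 2) *
      ((1 + x) ^ 6 * Real.exp (1 - x)) := by
    intro x hx
    rw [abs_mul, abs_of_pos hx]
    exact xbf_abs h0 h1 hK hZ hA0 hρ0 hρ hv hx
  have hxint : IntegrableOn (fun x : ℝ => (A + 3 * (K + 10) ^ 2 * δ ^ 2) *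
      Gf x) (Ioi 0) := int_Gf.const_mul _
  have hu'v : IntegrableOn ((fun x : ℝ => t * Real.cos (t * x)) * fun x => x * bf A Z ρ δ x)
      (Ioi 0) := by
    refine int_of_le ((by fun_prop : Continuous fun x : ℝ =>
      (t * Real.cos (t * x))).continuousOn.mul (continuousOn_id.mul (contOn_bf A Z ρ δ)))
      (g := fun x => t * ((A + 3 * (K + 10) ^ 2 * δ ^ 2) * Gf x)) (hxint.const_mul _)
      fun x hx => ?_
    simp only [Pi.mul_apply]
    rw [abs_mul, abs_mul, abs_of_pos ht]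
    have h3 := Real.abs_cos_le_one (t * x)
    have h4 := hxb x hx
    have h5 := abs_nonneg (x * bf A Z ρ δ x)
    have h6 : (1 + x) ^ 6 * Real.exp (1 - x) ≤ Gf x := by
      unfold Gf
      have p1 : (1:ℝ) ≤ 1 + x := by linarith
      have hhpos : 0 < x ^ (-(1/2) : ℝ) := Real.rpow_pos_of_pos hx _
      have a1 := rpow_half_le hx
      have a2 : (1 + x) ^ 6 ≤ x ^ (-(1/2) : ℝ) * (1 + x) ^ 10 := by
        calc (1 + x) ^ 6 = 1 * (1 + x) ^ 6 := by ring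
          _ ≤ (x ^ (-(1/2) : ℝ) * (1 + x)) * (1 + x) ^ 6 := by gcongr
          _ = x ^ (-(1/2) : ℝ) * (1 + x) ^ 7 := by ring
          _ ≤ _ := mul_le_mul_of_nonneg_left (pow_le_pow_right₀ p1 (by norm_num)) hhpos.le
      gcongr
    have hD : 0 ≤ A + 3 * (K + 10) ^ 2 * δ ^ 2 := by positivity
    calc t * |Real.cos (t * x)| * |x * bf A Z ρ δ x| ≤ t * 1 * ((A + 3 * (K + 10) ^ 2 * δ ^ 2) *
        ((1 + x) ^ 6 * Real.exp (1 - x))) := by gcongr
      _ ≤ t * 1 * ((A + 3 * (K + 10) ^ 2 * δ ^ 2) * Gf x) := by gcongr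
      _ = _ := by ring
  have hb : ∀ x, 0 < x → |((fun x : ℝ => Real.sin (t * x)) * fun x => x * bf A Z ρ δ x) x| ≤
      (t * (A + 3 * (K + 10) ^ 2 * δ ^ 2)) * Ee x := by
    intro x hx
    simp only [Pi.mul_apply]
    rw [abs_mul]
    have h2 : |Real.sin (t * x)| ≤ t * x := by
      have := Real.abs_sin_le_abs (x := t * x)
      rwa [abs_of_pos (show 0 < t * x by positivity)] at this
    have h3 := hxb x hx
    calc |Real.sin (t * x)| * |x * bf A Z ρ δ x| ≤ (t * x) * ((A + 3 * (K + 10) ^ 2 * δ ^ 2) *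
      ((1 + x) ^ 6 * Real.exp (1 - x))) := by gcongr
      _ = _ := by unfold Ee; ring
  obtain ⟨hz, hi⟩ := tendsto_of_Ee hb
  have key := integral_Ioi_mul_deriv_eq_deriv_mul hu hvd huv' hu'v hz hi
  have e1 : ∫ x in Ioi (0:ℝ), t * Real.cos (t * x) * (x * bf A Z ρ δ x) =
      t * ∫ x in Ioi 0, Real.cos (t * x) * (x * bf A Z ρ δ x) := by
    rw [← integral_const_mul]
    congr 1; ext x; ring
  rw [e1] at key
  have e2 : t * |∫ x in Ioi 0, Real.cos (t * x) * (x * bf A Z ρ δ x)| =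
      |∫ x in Ioi (0:ℝ), Real.sin (t * x) *
        (A * (δ * x ^ (δ - 1) * Real.exp (-x ^ (2 + δ))) - S x)| := by
    rw [key, sub_zero, zero_sub, abs_neg, abs_mul, abs_of_pos ht]
  rw [e2]
  have h9 := abs_int_le (f := fun x => Real.sin (t * x) *
        (A * (δ * x ^ (δ - 1) * Real.exp (-x ^ (2 + δ))) - S x)) (hg1.add hg2) (fun x hx => by
    simp only [Pi.add_apply]
    rw [abs_mul]
    have h3 := Real.abs_sin_le_one (t * x)
    have h4 := hvb x hx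
    have h5 := abs_nonneg (A * (δ * x ^ (δ - 1) * Real.exp (-x ^ (2 + δ))) - S x)
    nlinarith)
  refine h9.trans ?_
  rw [integral_add' hg1 hg2, integral_const_mul, integral_const_mul, integral_const_mul]
  have hG : δ * ∫ x in Ioi (0:ℝ), x ^ (δ - 1) * Real.exp (1 - x) ≤ 6 := by
    have e3 : ∀ x : ℝ, x ^ (δ - 1) * Real.exp (1 - x) =
        Real.exp 1 * (Real.exp (-x) * x ^ (δ - 1)) := fun x => by
      rw [sub_eq_add_neg 1 x, Real.exp_add]; ring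
    simp_rw [e3]
    rw [integral_const_mul, ← Real.Gamma_eq_integral h0]
    have e4 : δ * (Real.exp 1 * Real.Gamma δ) = Real.exp 1 * Real.Gamma (δ + 1) := by
      rw [Real.Gamma_add_one h0.ne']; ring
    rw [e4]
    have e5 : Real.exp 1 * Real.Gamma (δ + 1) = ∫ x in Ioi (0:ℝ), x ^ δ * Real.exp (1 - x) := by
      rw [Real.Gamma_eq_integral (by linarith), ← integral_const_mul]
      congr 1; ext x
      rw [sub_eq_add_neg 1 x, Real.exp_add, add_sub_cancel_right]; ring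
    rw [e5]
    have := int_mono (int_rpow_exp (s := δ) (by linarith)) (int_exp1.add int_xexp1)
      (fun x hx => by
        simp only [Pi.add_apply]
        have := rpow_le_one_add h0.le (by linarith) hx
        have h3 := Real.exp_pos (1 - x)
        nlinarith)
    rw [integral_add' int_exp1 int_xexp1, val_exp1, val_xexp1] at this
    have := exp_one_le
    linarith
  have hIG : ∫ x in Ioi (0:ℝ), Gf x = IG := rfl
  rw [hIG]
  have : 54 * δ * (δ * ∫ x in Ioi (0:ℝ), x ^ (δ - 1) * Real.exp (1 - x)) ≤ 54 * δ * 6 := by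
    gcongr
  linarith

end main

lemma beta_eq (δ x : ℝ) : beta (2 + δ) x = bf (Zo (2 + δ) * δ / ((2 + δ) * Zd (2 + δ) ^ 2))
    (Zo (2 + δ)) (Zo (2 + δ) / Zd (2 + δ)) δ x := by
  unfold beta bf
  rw [show (2 + δ) - 2 = δ by ring, show (2 + δ) - 3 = δ - 1 by ring]

lemma cos_g8_le {t : ℝ} (ht : 0 < t) :
    ∫ x in Ioi (0:ℝ), (1 - Real.cos (t * x)) * g8 x ≤ 2 * min 1 (t ^ 2) * IG ∧
    ∫ x in Ioi (0:ℝ), (1 - Real.cos (t * x)) * g8 x ≤ t * IG := by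
  have hi : IntegrableOn (fun x : ℝ => (1 - Real.cos (t * x)) * g8 x) (Ioi 0) := by
    refine int_of_le ((by fun_prop : Continuous fun x : ℝ =>
      (1 - Real.cos (t * x))).continuousOn.mul contOn_g8) (g := fun x => 2 * Gf x)
      (int_Gf.const_mul 2) fun x hx => ?_
    have h1 := g8_le hx
    have h2 := g8_nonneg hx
    have h3 := one_sub_cos_nonneg (t * x)
    have h4 := one_sub_cos_le_two (t * x)
    rw [abs_of_nonneg (by positivity)]
    gcongr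
  have hIG : ∫ x in Ioi (0:ℝ), Gf x = IG := rfl
  have b1 : ∫ x in Ioi (0:ℝ), (1 - Real.cos (t * x)) * g8 x ≤ 2 * IG := by
    have := int_mono hi (int_Gf.const_mul 2) fun x hx => by
      have h1 := g8_le hx
      have h2 := g8_nonneg hx
      have h3 := one_sub_cos_nonneg (t * x)
      have h4 := one_sub_cos_le_two (t * x)
      gcongr
    rwa [integral_const_mul, hIG] at this
  have b2 : ∫ x in Ioi (0:ℝ), (1 - Real.cos (t * x)) * g8 x ≤ t ^ 2 / 2 * IG := by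
    have := int_mono hi (int_Gf.const_mul (t ^ 2 / 2)) fun x hx => by
      have h1 := x2_g8_le hx
      have h2 := g8_nonneg hx
      have h4 := one_sub_cos_le_sq (t * x)
      calc (1 - Real.cos (t * x)) * g8 x ≤ ((t * x) ^ 2 / 2) * g8 x := by gcongr
        _ = t ^ 2 / 2 * (x ^ 2 * g8 x) := by ring
        _ ≤ _ := by gcongr
    rwa [integral_const_mul, hIG] at this
  have b3 : ∫ x in Ioi (0:ℝ), (1 - Real.cos (t * x)) * g8 x ≤ t * IG := by
    have := int_mono hi (int_Gf.const_mul t) fun x hx => by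
      have h1 := x_g8_le hx
      have h2 := g8_nonneg hx
      have h4 := one_sub_cos_le_self (y := t * x) (by positivity)
      calc (1 - Real.cos (t * x)) * g8 x ≤ (t * x) * g8 x := by gcongr
        _ = t * (x * g8 x) := by ring
        _ ≤ _ := by gcongr
    rwa [integral_const_mul, hIG] at this
  refine ⟨?_, b3⟩
  have := IG_nonneg
  rcases le_total 1 (t ^ 2) with h | h
  · rw [min_eq_left h]; linarith
  · rw [min_eq_right h]
    have : 0 ≤ t ^ 2 * IG := by positivity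
    linarith

theorem pktC2 : PktC2 := by
  have hIG := IG_nonneg
  set K : ℝ := 30 * IG with hKdef
  have hK : 0 ≤ K := by positivity
  set CR : ℝ := 9 * (K + 10) ^ 2 + 12 * (K + 10) with hCR
  have hCR0 : 0 ≤ CR := by positivity
  set D : ℝ := 2 + 4 * K + 46656 * CR * IG with hD
  have hD0 : 2 ≤ D := by
    have : 0 ≤ 46656 * CR * IG := by positivity
    linarith
  refine ⟨405 + (162 + 15 * (K + 10) ^ 2 + 12 * (K + 10)) * IG, 1 / 93312, 1 / D, by positivity,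
    by positivity, by positivity, ?_, ?_⟩
  · rw [div_le_iff₀ (by linarith)]; linarith
  intro δ h0 hδ
  have hδD : δ * D ≤ 1 := by
    rwa [le_div_iff₀ (by linarith)] at hδ
  have hKδ0 : 0 ≤ δ * K := by positivity
  have hCIδ0 : 0 ≤ δ * (CR * IG) := by positivity
  have hexp : δ * D = 2 * δ + 4 * (δ * K) + 46656 * (δ * (CR * IG)) := by rw [hD]; ring
  have h1 : δ ≤ 1 / 2 := by linarith
  have hKδ : K * δ ≤ 1 / 4 := by linarith
  have hCδ : 2 * CR * δ * IG ≤ 1 / 23328 := by linarith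
  set Z0 := Zo (2 + δ) with hZ0
  set Z1 := Zd (2 + δ) with hZ1
  obtain ⟨z0l, z0u⟩ := Zo_bounds (q := 2 + δ) (by linarith)
  obtain ⟨z1l, z1u⟩ := Zd_bounds (δ := δ) h0.le (by linarith)
  have hdiff := Zdiff (δ := δ) h0.le (by linarith)
  rw [← hZ0] at z0l z0u
  rw [← hZ1] at z1l z1u
  rw [← hZ0, ← hZ1] at hdiff
  have hZ1pos : 0 < Z1 := by linarith
  have hZ0pos : 0 < Z0 := by linarith
  set ρ : ℝ := Z0 / Z1 with hρdef
  set A : ℝ := Z0 * δ / ((2 + δ) * Z1 ^ 2) with hAdef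
  have hρ0 : 0 ≤ ρ := by positivity
  have hv : |1 - ρ| ≤ K * δ := by
    have e : 1 - ρ = (Z1 - Z0) / Z1 := by rw [hρdef]; field_simp
    rw [e, abs_div, abs_of_pos hZ1pos, div_le_iff₀ hZ1pos]
    refine hdiff.trans ?_
    have : 5 * IG * δ ≤ (30 * IG * δ) * Z1 := by
      have : 0 ≤ IG * δ := by positivity
      nlinarith
    rwa [hKdef]
  have hv4 : |1 - ρ| ≤ 1 / 4 := hv.trans hKδ
  have hρl : 3 / 4 ≤ ρ := by have := (abs_le.mp hv4).2; linarith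
  have hρu : ρ ≤ 5 / 4 := by have := (abs_le.mp hv4).1; linarith
  have hρ2 : ρ ≤ 2 := by linarith
  have hZ1sq : Z1 ^ 2 ≤ 36 := by nlinarith
  have hZ1sq' : 1 / 36 ≤ Z1 ^ 2 := by nlinarith
  have hA1 : A ≤ 54 * δ := by
    rw [hAdef, div_le_iff₀ (by positivity)]
    have : (1:ℝ)/18 ≤ (2 + δ) * Z1 ^ 2 := by nlinarith
    nlinarith [mul_le_mul_of_nonneg_left this h0.le, mul_le_mul_of_nonneg_right z0u h0.le]
  have hA2 : δ / 324 ≤ A := by
    rw [hAdef, le_div_iff₀ (by positivity)]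
    have : (2 + δ) * Z1 ^ 2 ≤ 108 := by nlinarith
    nlinarith [mul_le_mul_of_nonneg_left this h0.le, mul_le_mul_of_nonneg_right z0l h0.le]
  have hA0 : 0 ≤ A := by positivity
  have hkap : kap (2 + δ) = ρ / (2 + δ) := by
    unfold kap
    rw [hρdef, ← hZ0, ← hZ1, div_div, mul_comm Z1]
  have hBf : ∀ t, Bf (2 + δ) t = ∫ x in Ioi 0, Real.sin (t * x) * bf A Z0 ρ δ x := by
    intro t; unfold Bf; simp_rw [beta_eq]; rfl
  have hBf' : ∀ t, Bf' (2 + δ) t = ∫ x in Ioi 0, Real.cos (t * x) * (x * bf A Z0 ρ δ x) := by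
    intro t; unfold Bf'; simp_rw [beta_eq]; rfl
  have hlow : ∀ t, 0 < t → 1 / 23328 * δ * min 1 (t ^ 2) ≤ t * Bf (2 + δ) t := by
    intro t ht
    rw [hBf, ibp1 h0 h1 hK z0l hA0 hA1 hρ0 hρ2 hv t]
    have m1 := main_lower h0 (by linarith) ht
    have hm0 : 0 ≤ min 1 (t ^ 2) := by positivity
    set I1 := ∫ x in Ioi 0, (1 - Real.cos (t * x)) * (x ^ (δ - 2) * Real.exp (-x ^ (2 + δ)))
    have m2 : 1 / 11664 * δ * min 1 (t ^ 2) ≤ (1 - δ) * A * I1 := by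
      calc 1 / 11664 * δ * min 1 (t ^ 2) = (1 - 1 / 2) * (δ / 324) * (min 1 (t ^ 2) / 18) := by ring
        _ ≤ (1 - δ) * A * I1 := by
          have : 0 ≤ 1 - δ := by linarith
          gcongr
    have m3 : -(CR * δ ^ 2 * (2 * min 1 (t ^ 2) * IG)) ≤
        ∫ x in Ioi 0, (1 - Real.cos (t * x)) * Rf A Z0 ρ δ x := by
      have hi := int_Rf h0 h1 hK z0l hA0 hA1 hρ0 hρ2 hv t
      have hig : IntegrableOn (fun x : ℝ => (1 - Real.cos (t * x)) * g8 x) (Ioi 0) := by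
        refine int_of_le ((by fun_prop : Continuous fun x : ℝ =>
          (1 - Real.cos (t * x))).continuousOn.mul contOn_g8) (g := fun x => 2 * Gf x)
          (int_Gf.const_mul 2) fun x hx => ?_
        have h1 := g8_le hx
        have h2 := g8_nonneg hx
        have h3 := one_sub_cos_nonneg (t * x)
        have h4 := one_sub_cos_le_two (t * x)
        rw [abs_of_nonneg (by positivity)]
        gcongr
      have := int_mono (f := fun x => -(CR * δ ^ 2) * ((1 - Real.cos (t * x)) * g8 x))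
        (hig.const_mul _) hi (fun x hx => by
          have h2 := Rf_lower h0 h1 hK z0l hA0 hA1 hρ0 hρ2 hv hx
          have h3 := one_sub_cos_nonneg (t * x)
          calc -(CR * δ ^ 2) * ((1 - Real.cos (t * x)) * g8 x)
              = (1 - Real.cos (t * x)) * (-(CR * δ ^ 2 * g8 x)) := by ring
            _ ≤ _ := by gcongr)
      refine le_trans ?_ this
      rw [integral_const_mul]
      have h5 := (cos_g8_le ht).1
      have h6 : 0 ≤ CR * δ ^ 2 := by positivity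
      nlinarith [mul_le_mul_of_nonneg_left h5 h6]
    have m4 : CR * δ ^ 2 * (2 * min 1 (t ^ 2) * IG) ≤ 1 / 23328 * δ * min 1 (t ^ 2) := by
      calc CR * δ ^ 2 * (2 * min 1 (t ^ 2) * IG) = (2 * CR * δ * IG) * (δ * min 1 (t ^ 2)) := by
            ring
        _ ≤ 1 / 23328 * (δ * min 1 (t ^ 2)) := by gcongr
        _ = _ := by ring
    linarith
  refine ⟨?_, ?_, ?_, ?_, ?_⟩
  · rw [hkap, le_div_iff₀ (by linarith)]; linarith
  · rw [hkap, div_le_iff₀ (by linarith)]; linarith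
  · intro t ht
    constructor
    · have := hlow t ht
      have h2 : 0 < 1 / 23328 * δ * min 1 (t ^ 2) := by positivity
      exact (mul_pos_iff_of_pos_left ht).mp (lt_of_lt_of_le h2 this)
    · have h2 : t * Bf (2 + δ) t ≤
          t * ((405 + (162 + 15 * (K + 10) ^ 2 + 12 * (K + 10)) * IG) * δ) := by
        rw [hBf, ibp1 h0 h1 hK z0l hA0 hA1 hρ0 hρ2 hv t]
        have m1 := main_upper h0 (by linarith) ht
        set I1 := ∫ x in Ioi 0, (1 - Real.cos (t * x)) * (x ^ (δ - 2) * Real.exp (-x ^ (2 + δ)))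
          with hI1
        have hI1pos : 0 ≤ I1 := by
          refine le_trans ?_ (main_lower h0 (by linarith) ht)
          positivity
        have m2 : (1 - δ) * A * I1 ≤ 405 * δ * t := by
          calc (1 - δ) * A * I1 ≤ 1 * (54 * δ) * (15 / 2 * t) := by
                gcongr
                linarith
            _ = _ := by ring
        have m3 : ∫ x in Ioi 0, (1 - Real.cos (t * x)) * Rf A Z0 ρ δ x ≤
            (162 + 3 * (K + 10) ^ 2 + 12 * (K + 10)) * δ * (t * IG) := by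
          have hi := int_Rf h0 h1 hK z0l hA0 hA1 hρ0 hρ2 hv t
          have hig : IntegrableOn (fun x : ℝ => (1 - Real.cos (t * x)) * g8 x) (Ioi 0) := by
            refine int_of_le ((by fun_prop : Continuous fun x : ℝ =>
              (1 - Real.cos (t * x))).continuousOn.mul contOn_g8) (g := fun x => 2 * Gf x)
              (int_Gf.const_mul 2) fun x hx => ?_
            have h1 := g8_le hx
            have h2 := g8_nonneg hx
            have h3 := one_sub_cos_nonneg (t * x)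
            have h4 := one_sub_cos_le_two (t * x)
            rw [abs_of_nonneg (by positivity)]
            gcongr
          have := int_mono hi (g := fun x => (162 + 3 * (K + 10) ^ 2 + 12 * (K + 10)) * δ *
            ((1 - Real.cos (t * x)) * g8 x)) (hig.const_mul _) (fun x hx => by
              have h2 := Rf_upper h0 h1 hK z0l hA0 hA1 hρ0 hρ2 hv hx
              have h3 := one_sub_cos_nonneg (t * x)
              calc (1 - Real.cos (t * x)) * Rf A Z0 ρ δ x ≤ (1 - Real.cos (t * x)) *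
                  ((162 + 3 * (K + 10) ^ 2 + 12 * (K + 10)) * δ * g8 x) := by gcongr
                _ = _ := by ring)
          refine this.trans ?_
          rw [integral_const_mul]
          have h5 := (cos_g8_le ht).2
          gcongr
        have m4 : (162 + 3 * (K + 10) ^ 2 + 12 * (K + 10)) * δ * (t * IG) ≤
            (162 + 15 * (K + 10) ^ 2 + 12 * (K + 10)) * δ * (t * IG) := by
          gcongr; norm_num
        linarith
      exact le_of_mul_le_mul_left h2 ht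
  · intro t ht ht2
    rcases ht.eq_or_lt with h | h
    · rw [← h, hBf]; simp
    · have h2 := hlow t h
      have h3 : t ^ 2 / 4 ≤ min 1 (t ^ 2) := by
        rw [le_min_iff]; constructor <;> nlinarith
      have h4 : t * (1 / 93312 * δ * t) ≤ t * Bf (2 + δ) t := by
        calc t * (1 / 93312 * δ * t) = 1 / 23328 * δ * (t ^ 2 / 4) := by ring
          _ ≤ 1 / 23328 * δ * min 1 (t ^ 2) := by gcongr
          _ ≤ _ := h2
      exact le_of_mul_le_mul_left h4 h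
  · intro t ht
    rw [le_div_iff₀ ht, hBf', mul_comm]
    refine (ibp2 h0 h1 hK z0l hA0 hA1 hρ0 hρ2 hv ht).trans ?_
    gcongr
    norm_num

end Pool.Agent.Helper16.Proj
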